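import Mathlib

/-!
# The polynomial of the operator `f³ / q`
-/

namespace Pool.Agent.Helper98.HJ

open Polynomial

/-- The monic polynomial satisfied by `f³ / q`, when
`f^6 + s f^5 + t f^4 + u f^3 + q t f^2 + q^2 s f + q^3 = 0`, `s³ = q a`, `t³ = q² b`, `s t = q c`,
`t² = q d`, `u = q e`. -/
noncomputable def cubePoly {W : Type*} [CommRing W] (q s t a b c d e : W) : W[X] :=
  (X ^ 2 + C e * X + C q) ^ 3 + X * (C b * X ^ 3 + C (3 * t * c) * X ^ 2 + C (3 * q * s * c) * X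
    + C (q ^ 2 * a)) + X ^ 2 * (C a * X ^ 3 + C (3 * s * c) * X ^ 2 + C (3 * t * c) * X + C (q * b))
    - C 3 * X * (X ^ 2 + C e * X + C q) * (C c * X ^ 2 + C (d + s ^ 2) * X + C (q * c))

theorem cube_identity {R : Type*} [CommRing R] (q s t u a b c d e f x : R)
    (hs : s ^ 3 = q * a) (ht : t ^ 3 = q ^ 2 * b) (hc : s * t = q * c) (hd : t ^ 2 = q * d)
    (hu : u = q * e) (hx : q * x = f ^ 3)
    (hf : f ^ 6 + s * f ^ 5 + t * f ^ 4 + u * f ^ 3 + q * t * f ^ 2 + q ^ 2 * s * f + q ^ 3 = 0) :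
    q ^ 6 * ((x ^ 2 + e * x + q) ^ 3 + x * (b * x ^ 3 + (3 * t * c) * x ^ 2 + (3 * q * s * c) * x
      + (q ^ 2 * a)) + x ^ 2 * (a * x ^ 3 + (3 * s * c) * x ^ 2 + (3 * t * c) * x + (q * b))
      - 3 * x * (x ^ 2 + e * x + q) * (c * x ^ 2 + (d + s ^ 2) * x + (q * c))) = 0 := by
  have h1 : q ^ 2 * (x ^ 2 + e * x + q) = f ^ 6 + u * f ^ 3 + q ^ 3 := by
    have : q ^ 2 * (x ^ 2 + e * x + q) = (q * x) ^ 2 + (q * e) * (q * x) + q ^ 3 := by ring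
    rw [this, ← hu, hx]; ring
  have h2 : q ^ 6 * (x * (b * x ^ 3 + (3 * t * c) * x ^ 2 + (3 * q * s * c) * x + (q ^ 2 * a)))
      = (f * (t * f ^ 3 + q ^ 2 * s)) ^ 3 := by
    have : q ^ 6 * (x * (b * x ^ 3 + (3 * t * c) * x ^ 2 + (3 * q * s * c) * x + (q ^ 2 * a)))
        = (q ^ 2 * b) * (q * x) ^ 4 + 3 * q ^ 2 * t * (q * c) * (q * x) ^ 3
          + 3 * q ^ 4 * s * (q * c) * (q * x) ^ 2 + q ^ 6 * (q * a) * (q * x) := by ring
    rw [this, ← ht, ← hc, ← hs, hx]; ring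
  have h3 : q ^ 6 * (x ^ 2 * (a * x ^ 3 + (3 * s * c) * x ^ 2 + (3 * t * c) * x + (q * b)))
      = (f ^ 2 * (s * f ^ 3 + q * t)) ^ 3 := by
    have : q ^ 6 * (x ^ 2 * (a * x ^ 3 + (3 * s * c) * x ^ 2 + (3 * t * c) * x + (q * b)))
        = (q * a) * (q * x) ^ 5 + 3 * q * s * (q * c) * (q * x) ^ 4
          + 3 * q ^ 2 * t * (q * c) * (q * x) ^ 3 + q ^ 3 * (q ^ 2 * b) * (q * x) ^ 2 := by ring
    rw [this, ← ht, ← hc, ← hs, hx]; ring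
  have h4 : q ^ 4 * (x * (c * x ^ 2 + (d + s ^ 2) * x + (q * c)))
      = (f * (t * f ^ 3 + q ^ 2 * s)) * (f ^ 2 * (s * f ^ 3 + q * t)) := by
    have : q ^ 4 * (x * (c * x ^ 2 + (d + s ^ 2) * x + (q * c)))
        = (q * c) * (q * x) ^ 3 + q * (q * d) * (q * x) ^ 2 + q ^ 2 * s ^ 2 * (q * x) ^ 2
          + q ^ 3 * (q * c) * (q * x) := by ring
    rw [this, ← hc, ← hd, hx]; ring
  have h5 : q ^ 6 * ((x ^ 2 + e * x + q) ^ 3 + x * (b * x ^ 3 + (3 * t * c) * x ^ 2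
      + (3 * q * s * c) * x + (q ^ 2 * a)) + x ^ 2 * (a * x ^ 3 + (3 * s * c) * x ^ 2
      + (3 * t * c) * x + (q * b))
      - 3 * x * (x ^ 2 + e * x + q) * (c * x ^ 2 + (d + s ^ 2) * x + (q * c)))
      = (q ^ 2 * (x ^ 2 + e * x + q)) ^ 3 + q ^ 6 * (x * (b * x ^ 3 + (3 * t * c) * x ^ 2
        + (3 * q * s * c) * x + (q ^ 2 * a))) + q ^ 6 * (x ^ 2 * (a * x ^ 3 + (3 * s * c) * x ^ 2
        + (3 * t * c) * x + (q * b))) - 3 * (q ^ 2 * (x ^ 2 + e * x + q))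
          * (q ^ 4 * (x * (c * x ^ 2 + (d + s ^ 2) * x + (q * c)))) := by ring
  rw [h5, h1, h2, h3, h4]
  have h6 : (f ^ 6 + u * f ^ 3 + q ^ 3) + f * (t * f ^ 3 + q ^ 2 * s)
      + f ^ 2 * (s * f ^ 3 + q * t) = 0 := by
    rw [← hf]; ring
  generalize f ^ 6 + u * f ^ 3 + q ^ 3 = A at *
  generalize f * (t * f ^ 3 + q ^ 2 * s) = B at *
  generalize f ^ 2 * (s * f ^ 3 + q * t) = D at *
  linear_combination (A ^ 2 + B ^ 2 + D ^ 2 - A * B - B * D - A * D) * h6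

theorem cubePoly_monic {W : Type*} [CommRing W] [Nontrivial W] (q s t a b c d e : W) :
    (cubePoly q s t a b c d e).Monic := by
  have h : cubePoly q s t a b c d e = X ^ 6 + (C (3 * e + a - 3 * c) * X ^ 5
      + C (3 * q + 3 * e ^ 2 + b + 3 * s * c - 3 * (d + s ^ 2) - 3 * e * c) * X ^ 4
      + C (e ^ 3 + 6 * q * e + 3 * t * c + 3 * t * c - 3 * q * c - 3 * e * (d + s ^ 2) - 3 * q * c)
        * X ^ 3
      + C (3 * q ^ 2 + 3 * q * e ^ 2 + 3 * q * s * c + q * b - 3 * e * q * c - 3 * q * (d + s ^ 2))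
        * X ^ 2
      + C (3 * q ^ 2 * e + q ^ 2 * a - 3 * q ^ 2 * c) * X + C (q ^ 3)) := by
    rw [cubePoly]
    simp only [map_add, map_sub, map_mul, map_pow, map_ofNat]
    ring
  rw [h]
  refine monic_X_pow_add (n := 6) ?_
  compute_degree
  norm_num

end Pool.Agent.Helper98.HJ
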