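import Pool.Agent.Helper98.HJ.Idem
import Pool.Agent.Helper98.HJ.Cube

/-!
# Lattices: clearing denominators, separatedness, and the operator `f³ / q`
-/

namespace Pool.Agent.Helper98.HJ

open Polynomial

section

variable {W K V : Type*} [CommRing W] [IsDomain W] [Field K]
  [Algebra W K] [IsFractionRing W K]
  [AddCommGroup V] [Module K V] [Module W V] [IsScalarTower W K V]

theorem clear_one (M : Submodule W V) (hM : Submodule.span K (M : Set V) = ⊤) (x : V) :
    ∃ δ : W, δ ≠ 0 ∧ δ • x ∈ M := by
  have hx : x ∈ Submodule.span K (M : Set V) := by rw [hM]; trivial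
  refine Submodule.span_induction (p := fun x _ => ∃ δ : W, δ ≠ 0 ∧ δ • x ∈ M) ?_ ?_ ?_ ?_ hx
  · intro y hy
    exact ⟨1, one_ne_zero, by rw [one_smul]; exact hy⟩
  · exact ⟨1, one_ne_zero, by rw [smul_zero]; exact M.zero_mem⟩
  · rintro y z _ _ ⟨δ, hδ, h1⟩ ⟨ε, hε, h2⟩
    refine ⟨δ * ε, mul_ne_zero hδ hε, ?_⟩
    rw [smul_add]
    refine M.add_mem ?_ ?_
    · rw [mul_comm, mul_smul]; exact M.smul_mem _ h1
    · rw [mul_smul]; exact M.smul_mem _ h2
  · rintro c y _ ⟨δ, hδ, h1⟩
    obtain ⟨a, b, hb, rfl⟩ := IsFractionRing.div_surjective (A := W) c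
    have hb0 : algebraMap W K b ≠ 0 := by
      intro h0
      exact (nonZeroDivisors.ne_zero hb) ((IsFractionRing.injective W K) (by rw [h0, map_zero]))
    refine ⟨δ * b, mul_ne_zero hδ (nonZeroDivisors.ne_zero hb), ?_⟩
    have : (δ * b) • ((algebraMap W K a / algebraMap W K b) • y) = a • (δ • y) := by
      rw [← IsScalarTower.algebraMap_smul K (δ * b), ← IsScalarTower.algebraMap_smul K a,
        ← IsScalarTower.algebraMap_smul K δ, smul_smul, smul_smul, map_mul]
      congr 1
      field_simp
    rw [this]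
    exact M.smul_mem _ h1

theorem clear_finset (M : Submodule W V) (hM : Submodule.span K (M : Set V) = ⊤)
    (S : Finset V) : ∃ δ : W, δ ≠ 0 ∧ ∀ x ∈ S, δ • x ∈ M := by
  classical
  induction S using Finset.induction with
  | empty => exact ⟨1, one_ne_zero, by simp⟩
  | insert a S _ ih =>
    obtain ⟨δ, hδ, h1⟩ := ih
    obtain ⟨ε, hε, h2⟩ := clear_one M hM a
    refine ⟨δ * ε, mul_ne_zero hδ hε, ?_⟩
    intro x hx
    rcases Finset.mem_insert.1 hx with rfl | hx
    · rw [mul_smul]; exact M.smul_mem _ h2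
    · rw [mul_comm, mul_smul]; exact M.smul_mem _ (h1 x hx)

variable (K) in
include K in
theorem separated [IsPrincipalIdealRing W] (π : W) [IsAdicComplete (Ideal.span {π}) W]
    (M : Submodule W V) (hfg : M.FG) (x : V) (h : ∀ n : ℕ, ∃ y ∈ M, x = π ^ n • y) : x = 0 := by
  have hT : Module.IsTorsionFree W V := Module.IsTorsionFree.trans_faithfulSMul W K V
  have hfin : Module.Finite W M := Module.Finite.iff_fg.2 hfg
  obtain ⟨n, b⟩ : Σ n : ℕ, Module.Basis (Fin n) W M := Module.basisOfFiniteTypeTorsionFree'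
  have hc := complete_of_basis b π
  obtain ⟨y, hy, hx⟩ := h 0
  rw [pow_zero, one_smul] at hx
  have hxM : x ∈ M := hx ▸ hy
  have h0 : (⟨x, hxM⟩ : M) = 0 := by
    refine IsHausdorff.haus hc.toIsHausdorff _ fun n => ?_
    rw [smodEq_iff]
    obtain ⟨y, hy, hx⟩ := h n
    refine ⟨⟨y, hy⟩, ?_⟩
    rw [sub_zero]
    exact Subtype.ext hx
  exact congrArg Subtype.val h0

end

section

variable {W K C : Type*} [CommRing W] [IsDomain W] [Field K] [Algebra W K] [IsFractionRing W K]
  [CommRing C] [Algebra K C] [Algebra W C] [IsScalarTower W K C]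

variable (K) in
include K in
omit [IsDomain W] in
theorem aeval_cubePoly (q s t u a b c d e : W) (hq : q ≠ 0)
    (hs : s ^ 3 = q * a) (ht : t ^ 3 = q ^ 2 * b) (hc : s * t = q * c) (hd : t ^ 2 = q * d)
    (hu : u = q * e) (f x : C) (hx : algebraMap W C q * x = f ^ 3)
    (hf : f ^ 6 + algebraMap W C s * f ^ 5 + algebraMap W C t * f ^ 4 + algebraMap W C u * f ^ 3
      + algebraMap W C q * algebraMap W C t * f ^ 2
      + algebraMap W C q ^ 2 * algebraMap W C s * f + algebraMap W C q ^ 3 = 0) :
    aeval x (cubePoly q s t a b c d e) = 0 := by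
  have hqK : algebraMap W K q ≠ 0 := by
    intro h0
    exact hq ((IsFractionRing.injective W K) (by rw [h0, map_zero]))
  have hQQ : algebraMap W C q * algebraMap K C (algebraMap W K q)⁻¹ = 1 := by
    rw [IsScalarTower.algebraMap_apply W K C, ← map_mul, mul_inv_cancel₀ hqK, map_one]
  have h1 := cube_identity (algebraMap W C q) (algebraMap W C s) (algebraMap W C t)
    (algebraMap W C u) (algebraMap W C a) (algebraMap W C b) (algebraMap W C c)
    (algebraMap W C d) (algebraMap W C e) f x (by rw [← map_pow, hs, map_mul])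
    (by rw [← map_pow, ht, map_mul, map_pow]) (by rw [← map_mul, hc, map_mul])
    (by rw [← map_pow, hd, map_mul]) (by rw [hu, map_mul]) hx hf
  have h2 : aeval x (cubePoly q s t a b c d e) =
      ((x ^ 2 + algebraMap W C e * x + algebraMap W C q) ^ 3
      + x * (algebraMap W C b * x ^ 3 + (3 * algebraMap W C t * algebraMap W C c) * x ^ 2
      + (3 * algebraMap W C q * algebraMap W C s * algebraMap W C c) * x
      + (algebraMap W C q ^ 2 * algebraMap W C a)) + x ^ 2 * (algebraMap W C a * x ^ 3
      + (3 * algebraMap W C s * algebraMap W C c) * x ^ 2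
      + (3 * algebraMap W C t * algebraMap W C c) * x + (algebraMap W C q * algebraMap W C b))
      - 3 * x * (x ^ 2 + algebraMap W C e * x + algebraMap W C q)
        * (algebraMap W C c * x ^ 2 + (algebraMap W C d + algebraMap W C s ^ 2) * x
          + (algebraMap W C q * algebraMap W C c))) := by
    simp only [cubePoly, map_add, map_sub, map_mul, map_pow, aeval_X, aeval_C, map_ofNat]
  rw [← h2] at h1
  have h3 : aeval x (cubePoly q s t a b c d e) =
      (algebraMap K C (algebraMap W K q)⁻¹) ^ 6 * (algebraMap W C q ^ 6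
        * aeval x (cubePoly q s t a b c d e)) := by
    have : (algebraMap K C (algebraMap W K q)⁻¹) ^ 6 * (algebraMap W C q ^ 6
        * aeval x (cubePoly q s t a b c d e)) = (algebraMap W C q
          * algebraMap K C (algebraMap W K q)⁻¹) ^ 6 * aeval x (cubePoly q s t a b c d e) := by ring
    rw [this, hQQ, one_pow, one_mul]
  rw [h3, h1, mul_zero]

end

end Pool.Agent.Helper98.HJ
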