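import Pool.Agent.Helper98.HJ.Dual

/-!
# The self-dual stable lattice with `length (M / (F M + U M)) ≥ 2`
-/

namespace Pool.Agent.Helper98.HJ

open Submodule Module

section One

variable {W V : Type*} [CommRing W] [AddCommGroup V] [Module W V]

/-- A stable lattice containing `L` when `F³ L = π L`. -/
theorem exists_stable (τ : W ≃+* W) (π : W) (hτπ : τ π = π) (F : V ≃+ V)
    (hF : ∀ (c : W) x, F (c • x) = τ c • F x) (L : Submodule W V) (hfg : L.FG)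
    (hL : ∀ z, (∃ x ∈ L, z = F (F (F x))) ↔ ∃ x ∈ L, z = π • x) :
    ∃ M : Submodule W V, M.FG ∧ L ≤ M ∧
      (∀ z ∈ M, ∃ a ∈ L, ∃ b ∈ L, ∃ c ∈ L, z = a + F b + F (F c)) ∧
      (∀ x ∈ M, F x ∈ M) ∧ (∀ x ∈ M, π • F.symm x ∈ M) ∧
      (∀ x ∈ M, F (F (F x)) ∈ scaled π M) ∧
      (∀ x ∈ M, π • F.symm (π • F.symm (π • F.symm x)) ∈ scaled π M) := by
  have hsymm : ∀ (c : W) x, F.symm (c • x) = τ.symm c • F.symm x := by
    intro c x
    apply F.injective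
    rw [F.apply_symm_apply, hF, F.apply_symm_apply, τ.apply_symm_apply]
  have hτs : τ.symm π = π := by
    apply τ.injective
    rw [τ.apply_symm_apply, hτπ]
  let Fs : V →ₛₗ[(τ : W →+* W)] V :=
    { toFun := F, map_add' := map_add F, map_smul' := fun c x => hF c x }
  have hFs : ∀ x, Fs x = F x := fun _ => rfl
  let M : Submodule W V := L ⊔ (L.map Fs ⊔ (L.map Fs).map Fs)
  have hmem : ∀ z, z ∈ M ↔ ∃ a ∈ L, ∃ b ∈ L, ∃ c ∈ L, z = a + F b + F (F c) := by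
    intro z
    constructor
    · intro hz
      obtain ⟨a, ha, z', hz', rfl⟩ := Submodule.mem_sup.1 hz
      obtain ⟨_, ⟨b, hb, rfl⟩, _, ⟨_, ⟨c, hc, rfl⟩, rfl⟩, rfl⟩ := Submodule.mem_sup.1 hz'
      exact ⟨a, ha, b, hb, c, hc, by rw [hFs, hFs, hFs, add_assoc]⟩
    · rintro ⟨a, ha, b, hb, c, hc, rfl⟩
      rw [add_assoc]
      refine Submodule.add_mem_sup ha (Submodule.add_mem_sup ?_ ?_)
      · exact ⟨b, hb, rfl⟩
      · exact ⟨F c, ⟨c, hc, rfl⟩, rfl⟩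
  -- `F³ x = π y`, `π x = F³ y` for `x ∈ L`
  have up : ∀ x ∈ L, ∃ y ∈ L, F (F (F x)) = π • y := fun x hx => (hL _).1 ⟨x, hx, rfl⟩
  have dn : ∀ x ∈ L, ∃ y ∈ L, π • x = F (F (F y)) := by
    intro x hx
    exact (hL _).2 ⟨x, hx, rfl⟩
  have hFπ : ∀ x, F (π • x) = π • F x := fun x => by rw [hF, hτπ]
  have hF3 : ∀ x ∈ M, ∃ y ∈ M, F (F (F x)) = π • y := by
    intro x hx
    obtain ⟨a, ha, b, hb, c, hc, rfl⟩ := (hmem x).1 hx
    obtain ⟨a', ha', ea⟩ := up a ha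
    obtain ⟨b', hb', eb⟩ := up b hb
    obtain ⟨c', hc', ec⟩ := up c hc
    refine ⟨a' + F b' + F (F c'), (hmem _).2 ⟨a', ha', b', hb', c', hc', rfl⟩, ?_⟩
    simp only [map_add, ea, eb, ec, hFπ, smul_add]
  have hF3' : ∀ x ∈ M, ∃ y ∈ M, π • x = F (F (F y)) := by
    intro x hx
    obtain ⟨a, ha, b, hb, c, hc, rfl⟩ := (hmem x).1 hx
    obtain ⟨a', ha', ea⟩ := dn a ha
    obtain ⟨b', hb', eb⟩ := dn b hb
    obtain ⟨c', hc', ec⟩ := dn c hc
    refine ⟨a' + F b' + F (F c'), (hmem _).2 ⟨a', ha', b', hb', c', hc', rfl⟩, ?_⟩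
    rw [map_add, map_add, map_add, map_add, map_add, map_add, smul_add, smul_add, ea,
      ← hFπ b, eb, ← hFπ (F c), ← hFπ c, ec]
  refine ⟨M, ?_, le_sup_left, fun z hz => (hmem z).1 hz, ?_, ?_, ?_, ?_⟩
  · exact hfg.sup ((hfg.map Fs).sup ((hfg.map Fs).map Fs))
  · intro x hx
    obtain ⟨a, ha, b, hb, c, hc, rfl⟩ := (hmem x).1 hx
    obtain ⟨c', hc', ec⟩ := up c hc
    refine (hmem _).2 ⟨π • c', L.smul_mem _ hc', a, ha, b, hb, ?_⟩
    rw [map_add, map_add, ec]; abel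
  · intro x hx
    obtain ⟨a, ha, b, hb, c, hc, rfl⟩ := (hmem x).1 hx
    obtain ⟨a', ha', ea⟩ := dn a ha
    refine (hmem _).2 ⟨π • b, L.smul_mem _ hb, π • c, L.smul_mem _ hc, a', ha', ?_⟩
    have h1 : π • F.symm a = F (F a') := by
      apply F.injective
      rw [← ea, hFπ, F.apply_symm_apply]
    rw [map_add, map_add, F.symm_apply_apply, F.symm_apply_apply, smul_add, smul_add, h1, hFπ]
    abel
  · intro x hx
    obtain ⟨y, hy, e⟩ := hF3 x hx
    exact ⟨y, hy, e⟩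
  · intro x hx
    obtain ⟨y, hy, e⟩ := hF3' x hx
    refine ⟨π • y, M.smul_mem _ hy, ?_⟩
    have h1 : F.symm (F.symm (F.symm (π • x))) = y := by
      rw [e, F.symm_apply_apply, F.symm_apply_apply, F.symm_apply_apply]
    have h2 : F.symm (F.symm (F.symm (π • x))) = π • F.symm (F.symm (F.symm x)) := by
      rw [hsymm, hsymm, hsymm, hτs, hτs, hτs]
    rw [hsymm, hsymm, hsymm, hτs, hτs, ← h2, h1]

end One

section Main

variable {W K V : Type*} [CommRing W] [IsDomain W] [IsPrincipalIdealRing W] [Field K]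
  [Algebra W K] [IsFractionRing W K]
  [AddCommGroup V] [Module K V] [Module W V] [IsScalarTower W K V]

theorem exists_selfDual [FiniteDimensional K V] (τ : W ≃+* W) (σ : K ≃+* K)
    (hσ : ∀ c : W, σ (algebraMap W K c) = algebraMap W K (τ c))
    (π : W) (hπ0 : π ≠ 0) (hπu : ¬ IsUnit π) (hτπ : τ π = π)
    (F : V ≃+ V) (hF : ∀ (c : K) x, F (c • x) = σ c • F x)
    (ψ : LinearMap.BilinForm K V) (hA : ψ.IsAlt) (hN : ψ.Nondegenerate)
    (hψ : ∀ x y, ψ (F x) (F y) = algebraMap W K π * σ (ψ x y))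
    (N₁ N₂ : Submodule K V) (hc : IsCompl N₁ N₂)
    (i₁ : ∀ x ∈ N₁, ∀ y ∈ N₁, ψ x y = 0) (i₂ : ∀ x ∈ N₂, ∀ y ∈ N₂, ψ x y = 0)
    (s₁ : ∀ x, F x ∈ N₁ ↔ x ∈ N₁) (s₂ : ∀ x, F x ∈ N₂ ↔ x ∈ N₂) (hne : N₁ ≠ ⊥)
    (L : Submodule W V) (hfg : L.FG) (hs : Submodule.span K (L : Set V) = N₁)
    (hL : ∀ z, (∃ x ∈ L, z = F (F (F x))) ↔ ∃ x ∈ L, z = π • x) :
    ∃ M : Submodule W V, M.FG ∧ Submodule.span K (M : Set V) = ⊤ ∧ (∀ x ∈ M, F x ∈ M) ∧
      (∀ x ∈ M, π • F.symm x ∈ M) ∧ ψ.dualSubmodule M = M ∧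
      2 ≤ Module.length W (M ⧸ (FV W F (fun x => π • F.symm x) M).submoduleOf M) := by
  classical
  have hFW : ∀ (c : W) x, F (c • x) = τ c • F x := by
    intro c x
    rw [← IsScalarTower.algebraMap_smul K c x, hF, hσ, IsScalarTower.algebraMap_smul]
  have hsymm : ∀ (c : W) x, F.symm (c • x) = τ.symm c • F.symm x := by
    intro c x
    apply F.injective
    rw [F.apply_symm_apply, hFW, F.apply_symm_apply, τ.apply_symm_apply]
  have hτs : τ.symm π = π := by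
    apply τ.injective
    rw [τ.apply_symm_apply, hτπ]
  -- the function `U = π F⁻¹`
  let U : V →+ V :=
    { toFun := fun x => π • F.symm x
      map_zero' := by rw [map_zero, smul_zero]
      map_add' := fun x y => by rw [map_add, smul_add] }
  have hU : ∀ x, U x = π • F.symm x := fun _ => rfl
  have hFπ : ∀ x, F (π • x) = π • F x := fun x => by rw [hFW, hτπ]
  have hFU : ∀ x, F (U x) = π • x := fun x => by rw [hU, hFπ, F.apply_symm_apply]
  have hUF : ∀ x, U (F x) = π • x := fun x => by rw [hU, F.symm_apply_apply]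
  have hUW : ∀ (c : W) x, U (c • x) = τ.symm c • U x := by
    intro c x
    rw [hU, hU, hsymm, smul_smul, smul_smul, mul_comm]
  have hUπ : ∀ x, U (π • x) = π • U x := fun x => by rw [hUW, hτs]
  -- membership in `W ⊆ K`
  have hWσ : ∀ z : K, σ z ∈ (1 : Submodule W K) ↔ z ∈ (1 : Submodule W K) := by
    intro z
    rw [Submodule.mem_one, Submodule.mem_one]
    constructor
    · rintro ⟨c, hc⟩
      refine ⟨τ.symm c, σ.injective ?_⟩
      rw [hσ, τ.apply_symm_apply, hc]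
    · rintro ⟨c, rfl⟩
      exact ⟨τ c, (hσ c).symm⟩
  -- adjoints
  have adj1 : ∀ x y, ψ x (F y) = σ (ψ (U x) y) := by
    intro x y
    have h := hψ (F.symm x) y
    rw [F.apply_symm_apply] at h
    rw [h, hU, ← IsScalarTower.algebraMap_smul K π (F.symm x), map_smul, LinearMap.smul_apply,
      smul_eq_mul, map_mul, hσ, hτπ]
  have adj2 : ∀ x y, σ (ψ x (U y)) = ψ (F x) y := by
    intro x y
    have h := hψ x (F.symm y)
    rw [F.apply_symm_apply] at h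
    rw [h, hU, ← IsScalarTower.algebraMap_smul K π (F.symm y), map_smul,
      smul_eq_mul, map_mul, hσ, hτπ]
  -- the first half
  obtain ⟨M₁, fg₁, hLM, hform, st₁, su₁, c₁, d₁⟩ := exists_stable τ π hτπ F hFW L hfg hL
  have hLN : ∀ x ∈ L, x ∈ N₁ := fun x hx => hs ▸ Submodule.subset_span hx
  have hM1N : ∀ x ∈ M₁, x ∈ N₁ := by
    intro x hx
    obtain ⟨a, ha, b, hb, c, hc, rfl⟩ := hform x hx
    exact N₁.add_mem (N₁.add_mem (hLN a ha) ((s₁ _).2 (hLN b hb)))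
      ((s₁ _).2 ((s₁ _).2 (hLN c hc)))
  have hs₁ : Submodule.span K (M₁ : Set V) = N₁ := by
    apply le_antisymm
    · exact Submodule.span_le.2 hM1N
    · rw [← hs]; exact Submodule.span_mono hLM
  obtain ⟨n, e, f, heM, hfN, hspe, hef, hy, hx⟩ :=
    exists_dual (W := W) ψ hA hN N₁ N₂ hc i₁ i₂ M₁ fg₁ hs₁
  have heN : ∀ i, e i ∈ N₁ := fun i => hM1N _ (heM i)
  have hn : Nonempty (Fin n) := by
    by_contra hcon
    rw [not_nonempty_iff] at hcon
    apply hne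
    rw [eq_bot_iff]
    intro x hxN
    rw [← hx x hxN]
    simp
  -- the second half
  let M₂ : Submodule W V := Submodule.span W (Set.range f)
  have hM2N : ∀ y ∈ M₂, y ∈ N₂ := by
    intro y hyM
    have : M₂ ≤ N₂.restrictScalars W := Submodule.span_le.2 (by rintro _ ⟨i, rfl⟩; exact hfN i)
    exact this hyM
  have hM2 : ∀ y, y ∈ M₂ ↔ y ∈ N₂ ∧ ∀ x ∈ M₁, ψ x y ∈ (1 : Submodule W K) := by
    intro y
    constructor
    · intro hyM
      refine ⟨hM2N y hyM, ?_⟩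
      intro x hxM
      rw [← hspe] at hxM
      refine Submodule.span_induction (p := fun x _ => ψ x y ∈ (1 : Submodule W K))
        ?_ ?_ ?_ ?_ hxM
      · rintro _ ⟨i, rfl⟩
        refine Submodule.span_induction (p := fun y _ => ψ (e i) y ∈ (1 : Submodule W K))
          ?_ ?_ ?_ ?_ hyM
        · rintro _ ⟨j, rfl⟩
          rw [hef]
          by_cases hij : i = j
          · rw [if_pos hij]; exact Submodule.mem_one.2 ⟨1, map_one _⟩
          · rw [if_neg hij]; exact Submodule.zero_mem _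
        · rw [map_zero]; exact Submodule.zero_mem _
        · intro a b _ _ ha hb
          rw [map_add]; exact Submodule.add_mem _ ha hb
        · intro c a _ ha
          rw [← IsScalarTower.algebraMap_smul K c a, map_smul, IsScalarTower.algebraMap_smul]
          exact Submodule.smul_mem _ _ ha
      · rw [map_zero, LinearMap.zero_apply]; exact Submodule.zero_mem _
      · intro a b _ _ ha hb
        rw [map_add, LinearMap.add_apply]; exact Submodule.add_mem _ ha hb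
      · intro c a _ ha
        rw [← IsScalarTower.algebraMap_smul K c a, map_smul, LinearMap.smul_apply,
          IsScalarTower.algebraMap_smul]
        exact Submodule.smul_mem _ _ ha
    · rintro ⟨hyN, hyW⟩
      rw [← hy y hyN]
      refine Submodule.sum_mem _ fun i _ => ?_
      obtain ⟨c, hc⟩ := Submodule.mem_one.1 (hyW (e i) (heM i))
      rw [← hc, IsScalarTower.algebraMap_smul]
      exact Submodule.smul_mem _ _ (Submodule.subset_span ⟨i, rfl⟩)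
  have st₂ : ∀ y ∈ M₂, F y ∈ M₂ := by
    intro y hyM
    obtain ⟨h1, h2⟩ := (hM2 y).1 hyM
    refine (hM2 _).2 ⟨(s₂ y).2 h1, fun x hxM => ?_⟩
    rw [adj1, hWσ]
    exact h2 _ (su₁ x hxM)
  have hN₂U : ∀ y ∈ N₂, U y ∈ N₂ := by
    intro y hyN
    rw [← s₂, hFU, ← IsScalarTower.algebraMap_smul K π y]
    exact N₂.smul_mem _ hyN
  have su₂ : ∀ y ∈ M₂, U y ∈ M₂ := by
    intro y hyM
    obtain ⟨h1, h2⟩ := (hM2 y).1 hyM
    refine (hM2 _).2 ⟨hN₂U y h1, fun x hxM => ?_⟩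
    rw [← hWσ, adj2]
    exact h2 _ (st₁ x hxM)
  -- division by `π`
  have hπK : algebraMap W K π ≠ 0 := by
    intro h0
    exact hπ0 ((IsFractionRing.injective W K) (by rw [h0, map_zero]))
  have hdiv : ∀ z ∈ N₂, (∀ x ∈ M₁, ∃ c : W, ψ x z = algebraMap W K (π * c)) → z ∈ scaled π M₂ := by
    intro z hzN hz
    refine ⟨(algebraMap W K π)⁻¹ • z, (hM2 _).2 ⟨N₂.smul_mem _ hzN, fun x hxM => ?_⟩, ?_⟩
    · obtain ⟨c, hc⟩ := hz x hxM
      rw [map_smul, hc, map_mul, smul_eq_mul, ← mul_assoc, inv_mul_cancel₀ hπK, one_mul]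
      exact Submodule.mem_one.2 ⟨c, rfl⟩
    · rw [← IsScalarTower.algebraMap_smul K π, smul_smul, mul_inv_cancel₀ hπK, one_smul]
  have hscal : ∀ x ∈ scaled π M₁, ∀ y ∈ M₂, ∃ c : W, ψ x y = algebraMap W K (π * c) := by
    rintro _ ⟨x, hxM, rfl⟩ y hyM
    obtain ⟨c, hc⟩ := Submodule.mem_one.1 (((hM2 y).1 hyM).2 x hxM)
    refine ⟨c, ?_⟩
    rw [← IsScalarTower.algebraMap_smul K π x, map_smul, LinearMap.smul_apply, smul_eq_mul,
      ← hc, map_mul]
  have c₂ : ∀ y ∈ M₂, F (F (F y)) ∈ scaled π M₂ := by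
    intro y hyM
    refine hdiv _ ((s₂ _).2 ((s₂ _).2 ((s₂ _).2 (hM2N y hyM)))) fun x hxM => ?_
    rw [adj1, adj1, adj1]
    obtain ⟨c, hc⟩ := hscal _ (d₁ x hxM) y hyM
    have hc' : ψ (U (U (U x))) y = algebraMap W K (π * c) := hc
    refine ⟨τ (τ (τ c)), ?_⟩
    rw [hc', hσ, hσ, hσ]
    simp only [map_mul, hτπ]
  have d₂ : ∀ y ∈ M₂, U (U (U y)) ∈ scaled π M₂ := by
    intro y hyM
    refine hdiv _ (hN₂U _ (hN₂U _ (hN₂U _ (hM2N y hyM)))) fun x hxM => ?_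
    obtain ⟨c, hc⟩ := hscal _ (c₁ x hxM) y hyM
    refine ⟨τ.symm (τ.symm (τ.symm c)), ?_⟩
    apply σ.injective
    apply σ.injective
    apply σ.injective
    rw [adj2]
    have h1 : σ (σ (ψ (F x) (U (U y)))) = ψ (F (F (F x))) y := by rw [adj2, adj2]
    rw [h1, hc, hσ, hσ, hσ]
    simp only [map_mul, hτπ, RingEquiv.apply_symm_apply]
  -- `M_i ≤ π M_i` is impossible
  have nle₁ : ¬ M₁ ≤ scaled π M₁ := by
    intro hle
    obtain ⟨i⟩ := hn
    obtain ⟨c, hc⟩ := hscal _ (hle (heM i)) (f i) (Submodule.subset_span ⟨i, rfl⟩)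
    rw [hef, if_pos rfl, ← map_one (algebraMap W K)] at hc
    exact hπu (IsUnit.of_mul_eq_one c ((IsFractionRing.injective W K) hc).symm)
  have nle₂ : ¬ M₂ ≤ scaled π M₂ := by
    intro hle
    obtain ⟨i⟩ := hn
    obtain ⟨y, hyM, hyf⟩ := hle (show f i ∈ M₂ from Submodule.subset_span ⟨i, rfl⟩)
    obtain ⟨c, hc⟩ := Submodule.mem_one.1 (((hM2 y).1 hyM).2 (e i) (heM i))
    have h1 := hef i i
    rw [if_pos rfl, hyf, ← IsScalarTower.algebraMap_smul K π y, map_smul, smul_eq_mul, ← hc,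
      ← map_mul, ← map_one (algebraMap W K)] at h1
    exact hπu (IsUnit.of_mul_eq_one c ((IsFractionRing.injective W K) h1))
  have nfv₁ : ¬ M₁ ≤ FV W F U M₁ := fun h =>
    nle₁ (le_scaled (τ : W →+* W) (τ.symm : W →+* W) (F : V →+ V) U hFW hUW π hτπ hτs hFU hUF M₁
      st₁ su₁ c₁ d₁ h)
  have nfv₂ : ¬ M₂ ≤ FV W F U M₂ := fun h =>
    nle₂ (le_scaled (τ : W →+* W) (τ.symm : W →+* W) (F : V →+ V) U hFW hUW π hτπ hτs hFU hUF M₂
      st₂ su₂ c₂ d₂ h)
  -- the lattice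
  have hdisj : ∀ x, x ∈ N₁ → x ∈ N₂ → x = 0 := fun x h1 h2 =>
    (Submodule.mem_bot K).1 (hc.disjoint.le_bot ⟨h1, h2⟩)
  have stM : ∀ x ∈ M₁ ⊔ M₂, F x ∈ M₁ ⊔ M₂ := by
    intro x hxM
    obtain ⟨a, ha, b, hb, rfl⟩ := Submodule.mem_sup.1 hxM
    rw [map_add]
    exact Submodule.add_mem_sup (st₁ a ha) (st₂ b hb)
  have suM : ∀ x ∈ M₁ ⊔ M₂, U x ∈ M₁ ⊔ M₂ := by
    intro x hxM
    obtain ⟨a, ha, b, hb, rfl⟩ := Submodule.mem_sup.1 hxM
    rw [map_add]
    exact Submodule.add_mem_sup (su₁ a ha) (su₂ b hb)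
  have fvle : ∀ M : Submodule W V, (∀ x ∈ M, F x ∈ M) → (∀ x ∈ M, U x ∈ M) → FV W F U M ≤ M := by
    intro M h1 h2
    refine Submodule.span_le.2 ?_
    rintro _ ⟨x, hxM, rfl | rfl⟩
    · exact h1 x hxM
    · exact h2 x hxM
  have hsplit : ∀ z ∈ FV W F U (M₁ ⊔ M₂), ∃ a ∈ FV W F U M₁, ∃ b ∈ FV W F U M₂, z = a + b := by
    intro z hz
    refine Submodule.span_induction
      (p := fun z _ => ∃ a ∈ FV W F U M₁, ∃ b ∈ FV W F U M₂, z = a + b) ?_ ?_ ?_ ?_ hz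
    · rintro _ ⟨x, hxM, rfl | rfl⟩
      · obtain ⟨a, ha, b, hb, rfl⟩ := Submodule.mem_sup.1 hxM
        exact ⟨F a, Submodule.subset_span ⟨a, ha, Or.inl rfl⟩, F b,
          Submodule.subset_span ⟨b, hb, Or.inl rfl⟩, map_add F a b⟩
      · obtain ⟨a, ha, b, hb, rfl⟩ := Submodule.mem_sup.1 hxM
        exact ⟨U a, Submodule.subset_span ⟨a, ha, Or.inr rfl⟩, U b,
          Submodule.subset_span ⟨b, hb, Or.inr rfl⟩, map_add U a b⟩
    · exact ⟨0, Submodule.zero_mem _, 0, Submodule.zero_mem _, by rw [add_zero]⟩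
    · rintro _ _ _ _ ⟨a, ha, b, hb, rfl⟩ ⟨a', ha', b', hb', rfl⟩
      exact ⟨a + a', Submodule.add_mem _ ha ha', b + b', Submodule.add_mem _ hb hb', by abel⟩
    · rintro c _ _ ⟨a, ha, b, hb, rfl⟩
      exact ⟨c • a, Submodule.smul_mem _ _ ha, c • b, Submodule.smul_mem _ _ hb,
        by rw [smul_add]⟩
  have nA : ¬ M₁ ≤ FV W F U (M₁ ⊔ M₂) := by
    intro h
    apply nfv₁
    intro x hxM
    obtain ⟨a, ha, b, hb, e1⟩ := hsplit x (h hxM)
    have hb0 : b = 0 := by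
      refine hdisj b ?_ (hM2N _ (fvle M₂ st₂ su₂ hb))
      have : b = x - a := by rw [e1]; abel
      rw [this]
      exact N₁.sub_mem (hM1N _ hxM) (hM1N _ (fvle M₁ st₁ su₁ ha))
    rw [e1, hb0, add_zero]; exact ha
  have nB : ¬ M₁ ⊔ M₂ ≤ M₁ ⊔ FV W F U (M₁ ⊔ M₂) := by
    intro h
    apply nfv₂
    intro x hxM
    obtain ⟨m, hm, z, hz, e0⟩ := Submodule.mem_sup.1 (h (Submodule.mem_sup_right hxM))
    obtain ⟨a, ha, b, hb, e1⟩ := hsplit z hz
    have hb0 : x - b = 0 := by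
      refine hdisj _ ?_ (N₂.sub_mem (hM2N _ hxM) (hM2N _ (fvle M₂ st₂ su₂ hb)))
      have : x - b = m + a := by rw [← e0, e1]; abel
      rw [this]
      exact N₁.add_mem (hM1N _ hm) (hM1N _ (fvle M₁ st₁ su₁ ha))
    rw [sub_eq_zero.1 hb0]; exact hb
  refine ⟨M₁ ⊔ M₂, ?_, ?_, stM, suM, ?_, ?_⟩
  · exact fg₁.sup (Submodule.fg_span (Set.finite_range f))
  · rw [eq_top_iff, ← hc.sup_eq_top]
    refine sup_le ?_ ?_
    · rw [← hs₁]
      exact Submodule.span_mono (le_sup_left : M₁ ≤ M₁ ⊔ M₂)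
    · intro y hyN
      rw [← hy y hyN]
      refine Submodule.sum_mem _ fun i _ => Submodule.smul_mem _ _ (Submodule.subset_span ?_)
      exact (le_sup_right : M₂ ≤ M₁ ⊔ M₂) (Submodule.subset_span ⟨i, rfl⟩)
  · ext x
    rw [LinearMap.BilinForm.mem_dualSubmodule]
    constructor
    · intro h
      have hxT : x ∈ N₁ ⊔ N₂ := by rw [hc.sup_eq_top]; trivial
      obtain ⟨a, ha, b, hb, rfl⟩ := Submodule.mem_sup.1 hxT
      refine Submodule.add_mem_sup ?_ ?_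
      · rw [← hx a ha]
        refine Submodule.sum_mem _ fun i _ => ?_
        have h1 := h (f i) ((le_sup_right : M₂ ≤ M₁ ⊔ M₂) (Submodule.subset_span ⟨i, rfl⟩))
        rw [map_add, LinearMap.add_apply, i₂ b hb (f i) (hfN i), add_zero] at h1
        obtain ⟨c, hc'⟩ := Submodule.mem_one.1 h1
        rw [← hc', IsScalarTower.algebraMap_smul]
        exact Submodule.smul_mem _ _ (heM i)
      · refine (hM2 b).2 ⟨hb, fun y hyM => ?_⟩
        have h1 := h y ((le_sup_left : M₁ ≤ M₁ ⊔ M₂) hyM)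
        rw [map_add, LinearMap.add_apply, i₁ a ha y (hM1N y hyM), zero_add] at h1
        rw [← hA.neg_eq]
        exact Submodule.neg_mem _ h1
    · intro hxM y hyM
      obtain ⟨a, ha, b, hb, rfl⟩ := Submodule.mem_sup.1 hxM
      obtain ⟨a', ha', b', hb', rfl⟩ := Submodule.mem_sup.1 hyM
      rw [map_add, map_add, LinearMap.add_apply, LinearMap.add_apply,
        i₁ a (hM1N a ha) a' (hM1N a' ha'), i₂ b (hM2N b hb) b' (hM2N b' hb'), zero_add, add_zero]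
      refine Submodule.add_mem _ ?_ ?_
      · rw [← hA.neg_eq]
        exact Submodule.neg_mem _ (((hM2 b).1 hb).2 a' ha')
      · exact ((hM2 b').1 hb').2 a ha
  · rw [Module.length_quotient]
    set A : Submodule W V := FV W F (fun x => π • F.symm x) (M₁ ⊔ M₂) with hAdef
    have hAeq : A = FV W F U (M₁ ⊔ M₂) := rfl
    have hAM : A ≤ M₁ ⊔ M₂ := fvle _ stM suM
    have l1 : A.submoduleOf (M₁ ⊔ M₂) < (M₁ ⊔ A).submoduleOf (M₁ ⊔ M₂) := by
      refine lt_of_le_not_ge ?_ ?_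
      · intro z hz
        exact (le_sup_right : A ≤ M₁ ⊔ A) hz
      · intro h
        apply nA
        intro x hxM
        have hxM' : x ∈ M₁ ⊔ M₂ := (le_sup_left : M₁ ≤ M₁ ⊔ M₂) hxM
        have : (⟨x, hxM'⟩ : ↥(M₁ ⊔ M₂)) ∈ A.submoduleOf (M₁ ⊔ M₂) :=
          h ((le_sup_left : M₁ ≤ M₁ ⊔ A) hxM)
        exact this
    have l2 : (M₁ ⊔ A).submoduleOf (M₁ ⊔ M₂) < ⊤ := by
      rw [lt_top_iff_ne_top]
      intro h
      rw [Submodule.submoduleOf_eq_top] at h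
      exact nB h
    have k1 := Order.coheight_add_one_le l1
    have k2 := Order.coheight_add_one_le l2
    rw [Order.coheight_top, zero_add] at k2
    calc (2 : ℕ∞) = 1 + 1 := by norm_num
      _ ≤ Order.coheight ((M₁ ⊔ A).submoduleOf (M₁ ⊔ M₂)) + 1 := by gcongr
      _ ≤ _ := k1

end Main

end Pool.Agent.Helper98.HJ
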