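import Pool.Agent.Helper98.HJ.Cube

/-!
# The middle coefficient cannot be topologically nilpotent
-/

namespace Pool.Agent.Helper98.HJ

open Polynomial

/-- Let `f g = 1`, `f^6 + s f^5 + t f^4 + u f^3 + q t f^2 + q^2 s f + q^3 = 0` with `s³ = q a`,
`t³ = q² b`, `u = q e`, `e` a unit. If powers of `x = f³/q` and of `x' = q² g³` are `π` times
integral elements, the algebra is zero. -/
theorem one_eq_zero {W K C : Type*} [CommRing W] [IsDomain W] [IsIntegrallyClosed W] [Field K]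
    [Algebra W K] [IsFractionRing W K] [CommRing C] [Algebra K C] [Algebra W C]
    [IsScalarTower W K C]
    (π : W) (hπ0 : π ≠ 0) (hπu : ¬ IsUnit π) (q s t u a b e : W) (hq : q ≠ 0)
    (hs : s ^ 3 = q * a) (ht : t ^ 3 = q ^ 2 * b) (hu : u = q * e) (he : IsUnit e)
    (f g x x' : C) (hfg : f * g = 1)
    (hx : algebraMap W C q * x = f ^ 3) (hx' : x' = algebraMap W C q ^ 2 * g ^ 3)
    (hf : f ^ 6 + algebraMap W C s * f ^ 5 + algebraMap W C t * f ^ 4 + algebraMap W C u * f ^ 3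
      + algebraMap W C q * algebraMap W C t * f ^ 2
      + algebraMap W C q ^ 2 * algebraMap W C s * f + algebraMap W C q ^ 3 = 0)
    (ix : IsIntegral W x) (ix' : IsIntegral W x') (m m' : ℕ) (b₁ b₂ : C) (i₁ : IsIntegral W b₁)
    (i₂ : IsIntegral W b₂) (h₁ : x ^ m = algebraMap W C π * b₁)
    (h₂ : x' ^ m' = algebraMap W C π * b₂) : (1 : C) = 0 := by
  by_contra hne
  have hnt : Nontrivial C := ⟨1, 0, hne⟩
  have hqK : algebraMap W K q ≠ 0 := by
    intro h0
    exact hq ((IsFractionRing.injective W K) (by rw [h0, map_zero]))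
  -- the inverse of `q` in `C`
  set Q : C := algebraMap W C q with hQ
  set Q' : C := algebraMap K C (algebraMap W K q)⁻¹ with hQ'
  have hQQ : Q * Q' = 1 := by
    rw [hQ, hQ', IsScalarTower.algebraMap_apply W K C, ← map_mul, mul_inv_cancel₀ hqK, map_one]
  set S : C := algebraMap W C s with hS
  set T : C := algebraMap W C t with hT
  set U : C := algebraMap W C u with hU
  have hS3 : S ^ 3 = Q * algebraMap W C a := by rw [hS, hQ, ← map_pow, hs, map_mul]
  have hT3 : T ^ 3 = Q ^ 2 * algebraMap W C b := by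
    rw [hT, hQ, ← map_pow, ht, map_mul, map_pow]
  have hU' : U = Q * algebraMap W C e := by rw [hU, hu, map_mul]
  have hx1 : x = Q' * f ^ 3 := by rw [← hx]; linear_combination (-x) * hQQ
  -- the six terms
  set T2 : C := S * Q' * f ^ 2 with hT2
  set T3 : C := T * Q' * f with hT3'
  set T4 : C := T * g with hT4
  set T5 : C := Q * S * g ^ 2 with hT5
  have e2 : T2 ^ 3 = algebraMap W C a * x ^ 2 := by
    have : T2 ^ 3 = S ^ 3 * Q' ^ 3 * f ^ 6 := by rw [hT2]; ring
    rw [this, hS3, hx1]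
    linear_combination (algebraMap W C a * Q' ^ 2 * f ^ 6) * hQQ
  have e3 : T3 ^ 3 = algebraMap W C b * x := by
    have : T3 ^ 3 = T ^ 3 * Q' ^ 3 * f ^ 3 := by rw [hT3']; ring
    rw [this, hT3, hx1]
    linear_combination (algebraMap W C b * Q' * f ^ 3 * (Q * Q' + 1)) * hQQ
  have e4 : T4 ^ 3 = algebraMap W C b * x' := by
    have : T4 ^ 3 = T ^ 3 * g ^ 3 := by rw [hT4]; ring
    rw [this, hT3, hx']; ring
  have e5 : T5 ^ 3 = algebraMap W C a * x' ^ 2 := by
    have : T5 ^ 3 = Q ^ 3 * S ^ 3 * g ^ 6 := by rw [hT5]; ring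
    rw [this, hS3, hx']; ring
  have sum : x + T2 + T3 + algebraMap W C e + T4 + T5 + x' = 0 := by
    have hg3 : f ^ 3 * g ^ 3 = 1 := by rw [← mul_pow, hfg, one_pow]
    have hg2 : f ^ 2 * g ^ 2 = 1 := by rw [← mul_pow, hfg, one_pow]
    have h0 : Q' * g ^ 3 * (f ^ 6 + S * f ^ 5 + T * f ^ 4 + U * f ^ 3 + Q * T * f ^ 2
      + Q ^ 2 * S * f + Q ^ 3) = 0 := by rw [hf, mul_zero]
    rw [hx1, hT2, hT3', hT4, hT5, hx']
    rw [hU'] at h0
    have k6 : Q' * g ^ 3 * f ^ 6 = Q' * f ^ 3 := by linear_combination (Q' * f ^ 3) * hg3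
    have k5 : Q' * g ^ 3 * (S * f ^ 5) = S * Q' * f ^ 2 := by
      linear_combination (Q' * S * f ^ 2) * hg3
    have k4 : Q' * g ^ 3 * (T * f ^ 4) = T * Q' * f := by linear_combination (Q' * T * f) * hg3
    have k3 : Q' * g ^ 3 * (Q * algebraMap W C e * f ^ 3) = algebraMap W C e := by
      linear_combination (Q' * Q * algebraMap W C e) * hg3 + algebraMap W C e * hQQ
    have k2 : Q' * g ^ 3 * (Q * T * f ^ 2) = T * g := by
      linear_combination (Q' * Q * T * g) * hg2 + T * g * hQQ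
    have k1 : Q' * g ^ 3 * (Q ^ 2 * S * f) = Q * S * g ^ 2 := by
      linear_combination (Q' * Q ^ 2 * S * g ^ 2) * hfg + Q * S * g ^ 2 * hQQ
    have k0 : Q' * g ^ 3 * Q ^ 3 = Q ^ 2 * g ^ 3 := by
      linear_combination (Q ^ 2 * g ^ 3) * hQQ
    linear_combination h0 - k6 - k5 - k4 - k3 - k2 - k1 - k0
  -- the integral closure
  let O := integralClosure W C
  have mem : ∀ z : C, IsIntegral W z ↔ z ∈ O := fun z => Iff.rfl
  have ia : IsIntegral W (algebraMap W C a) := isIntegral_algebraMap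
  have ib : IsIntegral W (algebraMap W C b) := isIntegral_algebraMap
  have j2 : IsIntegral W T2 := IsIntegral.of_pow (by norm_num : 0 < 3) (e2 ▸ ia.mul (ix.pow 2))
  have j3 : IsIntegral W T3 := IsIntegral.of_pow (by norm_num : 0 < 3) (e3 ▸ ib.mul ix)
  have j4 : IsIntegral W T4 := IsIntegral.of_pow (by norm_num : 0 < 3) (e4 ▸ ib.mul ix')
  have j5 : IsIntegral W T5 := IsIntegral.of_pow (by norm_num : 0 < 3) (e5 ▸ ia.mul (ix'.pow 2))
  let J : Ideal O := (Ideal.span {algebraMap W O π}).radical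
  have rad : ∀ z : O, ∀ n : ℕ, z ^ n ∈ J → z ∈ J := by
    intro z n h
    exact Ideal.radical_isRadical _ ⟨n, h⟩
  have J1 : (⟨x, ix⟩ : O) ∈ J := by
    refine rad _ m ?_
    apply Ideal.le_radical
    refine Ideal.mem_span_singleton.2 ⟨⟨b₁, i₁⟩, ?_⟩
    exact Subtype.ext h₁
  have J6 : (⟨x', ix'⟩ : O) ∈ J := by
    refine rad _ m' ?_
    apply Ideal.le_radical
    refine Ideal.mem_span_singleton.2 ⟨⟨b₂, i₂⟩, ?_⟩
    exact Subtype.ext h₂
  have J2 : (⟨T2, j2⟩ : O) ∈ J := by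
    refine rad _ 3 ?_
    have : (⟨T2, j2⟩ : O) ^ 3 = (⟨algebraMap W C a, ia⟩ * ⟨x, ix⟩) * ⟨x, ix⟩ := by
      apply Subtype.ext
      change T2 ^ 3 = algebraMap W C a * x * x
      rw [e2]; ring
    rw [this]
    exact J.mul_mem_left _ J1
  have J3 : (⟨T3, j3⟩ : O) ∈ J := by
    refine rad _ 3 ?_
    have : (⟨T3, j3⟩ : O) ^ 3 = ⟨algebraMap W C b, ib⟩ * ⟨x, ix⟩ := Subtype.ext e3
    rw [this]
    exact J.mul_mem_left _ J1
  have J4 : (⟨T4, j4⟩ : O) ∈ J := by
    refine rad _ 3 ?_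
    have : (⟨T4, j4⟩ : O) ^ 3 = ⟨algebraMap W C b, ib⟩ * ⟨x', ix'⟩ := Subtype.ext e4
    rw [this]
    exact J.mul_mem_left _ J6
  have J5 : (⟨T5, j5⟩ : O) ∈ J := by
    refine rad _ 3 ?_
    have : (⟨T5, j5⟩ : O) ^ 3 = (⟨algebraMap W C a, ia⟩ * ⟨x', ix'⟩) * ⟨x', ix'⟩ := by
      apply Subtype.ext
      change T5 ^ 3 = algebraMap W C a * x' * x'
      rw [e5]; ring
    rw [this]
    exact J.mul_mem_left _ J6
  have Je : algebraMap W O e ∈ J := by
    have h0 : algebraMap W O e = -((⟨x, ix⟩ : O) + ⟨T2, j2⟩ + ⟨T3, j3⟩ + ⟨T4, j4⟩ + ⟨T5, j5⟩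
        + ⟨x', ix'⟩) := by
      apply Subtype.ext
      change algebraMap W C e = -(x + T2 + T3 + T4 + T5 + x')
      linear_combination sum
    rw [h0]
    exact J.neg_mem (J.add_mem (J.add_mem (J.add_mem (J.add_mem (J.add_mem J1 J2) J3) J4) J5) J6)
  have Jone : (1 : O) ∈ J := by
    obtain ⟨e', he'⟩ := he.exists_right_inv
    have : (1 : O) = algebraMap W O e' * algebraMap W O e := by
      rw [← map_mul, mul_comm, he', map_one]
    rw [this]
    exact J.mul_mem_left _ Je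
  obtain ⟨n, hn⟩ := Jone
  rw [one_pow, Ideal.mem_span_singleton] at hn
  obtain ⟨⟨o, io⟩, ho⟩ := hn
  have ho' : (1 : C) = algebraMap W C π * o := congrArg Subtype.val ho
  have hπK : algebraMap W K π ≠ 0 := by
    intro h0
    exact hπ0 ((IsFractionRing.injective W K) (by rw [h0, map_zero]))
  have h3 : algebraMap K C (algebraMap W K π)⁻¹ = o := by
    have h4 : algebraMap K C (algebraMap W K π)⁻¹ * algebraMap W C π = 1 := by
      rw [IsScalarTower.algebraMap_apply W K C, ← map_mul, inv_mul_cancel₀ hπK, map_one]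
    calc algebraMap K C (algebraMap W K π)⁻¹
        = algebraMap K C (algebraMap W K π)⁻¹ * (algebraMap W C π * o) := by rw [← ho', mul_one]
      _ = o := by rw [← mul_assoc, h4, one_mul]
  have h5 : IsIntegral W (algebraMap W K π)⁻¹ := by
    have io' : IsIntegral W o := io
    rw [← h3] at io'
    exact (isIntegral_algebraMap_iff (algebraMap K C).injective).1 io'
  obtain ⟨y, hy⟩ := (IsIntegrallyClosed.isIntegral_iff (R := W) (K := K)).1 h5
  apply hπu
  refine IsUnit.of_mul_eq_one y ?_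
  apply IsFractionRing.injective W K
  rw [map_mul, hy, mul_inv_cancel₀ hπK, map_one]

end Pool.Agent.Helper98.HJ
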