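import Pool.Agent.Helper98.HJ.Unit
import Pool.Agent.Helper98.HJ.Nilp

/-!
# The slope decomposition
-/

namespace Pool.Agent.Helper98.HJ

open Polynomial

theorem isIntegral_aeval' {W C : Type*} [CommRing W] [CommRing C] [Algebra W C] (x : C)
    (hx : IsIntegral W x) (h : W[X]) : IsIntegral W (aeval x h) := by
  induction h using Polynomial.induction_on' with
  | add p q hp hq => rw [map_add]; exact hp.add hq
  | monomial n c =>
    rw [aeval_monomial]
    exact isIntegral_algebraMap.mul (hx.pow n)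

/-- The reciprocal root also satisfies the equation. -/
theorem recip_eq {C : Type*} [CommRing C] (f g q s t u : C) (hfg : f * g = 1)
    (hf : f ^ 6 + s * f ^ 5 + t * f ^ 4 + u * f ^ 3 + q * t * f ^ 2 + q ^ 2 * s * f + q ^ 3 = 0) :
    (q * g) ^ 6 + s * (q * g) ^ 5 + t * (q * g) ^ 4 + u * (q * g) ^ 3 + q * t * (q * g) ^ 2
      + q ^ 2 * s * (q * g) + q ^ 3 = 0 := by
  have h : ∀ n : ℕ, f ^ n * g ^ n = 1 := fun n => by rw [← mul_pow, hfg, one_pow]
  have h0 : q ^ 3 * g ^ 6 * (f ^ 6 + s * f ^ 5 + t * f ^ 4 + u * f ^ 3 + q * t * f ^ 2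
    + q ^ 2 * s * f + q ^ 3) = 0 := by rw [hf, mul_zero]
  linear_combination h0 - q ^ 3 * h 6 - q ^ 3 * s * g * h 5 - q ^ 3 * t * g ^ 2 * h 4
    - q ^ 3 * u * g ^ 3 * h 3 - q ^ 4 * t * g ^ 4 * h 2 - q ^ 5 * s * g ^ 5 * h 1

theorem bounded_form {W K V : Type*} [CommRing W] [IsDomain W] [Field K] [Algebra W K]
    [IsFractionRing W K] [AddCommGroup V] [Module K V] [Module W V] [IsScalarTower W K V]
    (M : Submodule W V) (hfg : M.FG) (ψ : LinearMap.BilinForm K V) :
    ∃ ε : W, ε ≠ 0 ∧ ∀ x ∈ M, ∀ y ∈ M, ∃ c : W, algebraMap W K ε * ψ x y = algebraMap W K c := by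
  classical
  obtain ⟨S, rfl⟩ := hfg
  obtain ⟨ε, hε⟩ := IsLocalization.exist_integer_multiples_of_finset (nonZeroDivisors W)
    ((S ×ˢ S).image (fun p => ψ p.1 p.2))
  refine ⟨ε, nonZeroDivisors.ne_zero ε.2, ?_⟩
  have h1 : ∀ x ∈ S, ∀ y ∈ S, ∃ c : W, algebraMap W K ε * ψ x y = algebraMap W K c := by
    intro x hx y hy
    obtain ⟨c, hc⟩ := hε (ψ x y) (Finset.mem_image.2 ⟨(x, y), Finset.mem_product.2 ⟨hx, hy⟩, rfl⟩)
    refine ⟨c, ?_⟩
    rw [hc, Algebra.smul_def]
  intro x hx y hy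
  refine Submodule.span_induction
    (p := fun x _ => ∃ c : W, algebraMap W K ε * ψ x y = algebraMap W K c) ?_ ?_ ?_ ?_ hx
  · intro x hx
    refine Submodule.span_induction
      (p := fun y _ => ∃ c : W, algebraMap W K ε * ψ x y = algebraMap W K c) ?_ ?_ ?_ ?_ hy
    · intro y hy
      exact h1 x hx y hy
    · exact ⟨0, by rw [map_zero, mul_zero, map_zero]⟩
    · rintro a b _ _ ⟨c, hc⟩ ⟨d, hd⟩
      exact ⟨c + d, by rw [map_add, mul_add, hc, hd, map_add]⟩
    · rintro a b _ ⟨c, hc⟩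
      refine ⟨a * c, ?_⟩
      rw [← IsScalarTower.algebraMap_smul K a b, map_smul, smul_eq_mul, map_mul, ← hc]
      ring
  · exact ⟨0, by rw [map_zero, LinearMap.zero_apply, mul_zero, map_zero]⟩
  · rintro a b _ _ ⟨c, hc⟩ ⟨d, hd⟩
    exact ⟨c + d, by rw [map_add, LinearMap.add_apply, mul_add, hc, hd, map_add]⟩
  · rintro a b _ ⟨c, hc⟩
    refine ⟨a * c, ?_⟩
    rw [← IsScalarTower.algebraMap_smul K a b, map_smul, LinearMap.smul_apply, smul_eq_mul,
      map_mul, ← hc]
    ring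

theorem slope_split {W K V : Type*} [CommRing W] [IsDomain W] [IsPrincipalIdealRing W] [Field K]
    [Algebra W K] [IsFractionRing W K] [AddCommGroup V] [Module K V] [Module W V]
    [IsScalarTower W K V] [FiniteDimensional K V] [Nontrivial V]
    (τ : W ≃+* W) (σ : K ≃+* K) (hσ : ∀ c : W, σ (algebraMap W K c) = algebraMap W K (τ c))
    (π : W) (hπ0 : π ≠ 0) (hπu : ¬ IsUnit π) (hτπ : τ π = π)
    [hcomp : IsAdicComplete (Ideal.span {π}) W] [hfin : Finite (W ⧸ Ideal.span {π})]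
    (F : V ≃+ V) (hF : ∀ (c : K) x, F (c • x) = σ c • F x)
    (ψ : LinearMap.BilinForm K V) (hN : ψ.Nondegenerate)
    (hψ : ∀ x y, ψ (F x) (F y) = algebraMap W K π * σ (ψ x y))
    (r : ℕ) (hr : 1 ≤ r) (Φ : Module.End K V) (hΦ : ∀ x, Φ x = F^[r] x)
    (s t u a b c d e : W) (hs : s ^ 3 = π ^ r * a) (ht : t ^ 3 = (π ^ r) ^ 2 * b)
    (hc : s * t = π ^ r * c) (hd : t ^ 2 = π ^ r * d) (hu : u = π ^ r * e) (he : IsUnit e)
    (hχ : aeval Φ (X ^ 6 + C (algebraMap W K s) * X ^ 5 + C (algebraMap W K t) * X ^ 4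
      + C (algebraMap W K u) * X ^ 3 + C (algebraMap W K (π ^ r) * algebraMap W K t) * X ^ 2
      + C (algebraMap W K (π ^ r) ^ 2 * algebraMap W K s) * X
      + C (algebraMap W K (π ^ r) ^ 3) : K[X]) = 0) :
    ∃ N₁ N₂ : Submodule K V, IsCompl N₁ N₂ ∧ (∀ x ∈ N₁, ∀ y ∈ N₁, ψ x y = 0) ∧
      (∀ x ∈ N₂, ∀ y ∈ N₂, ψ x y = 0) ∧ (∀ x, F x ∈ N₁ ↔ x ∈ N₁) ∧ (∀ x, F x ∈ N₂ ↔ x ∈ N₂) ∧
      N₁ ≠ ⊥ ∧ ∃ L : Submodule W V, L.FG ∧ Submodule.span K (L : Set V) = N₁ ∧
        ∀ z, (∃ x ∈ L, z = F (F (F x))) ↔ ∃ x ∈ L, z = π • x := by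
  classical
  -- scalars
  have injWK : Function.Injective (algebraMap W K) := IsFractionRing.injective W K
  set q : W := π ^ r with hq
  have hq0 : q ≠ 0 := pow_ne_zero _ hπ0
  set κ : K := algebraMap W K q with hκ
  have hκ0 : κ ≠ 0 := by
    intro h0
    exact hq0 (injWK (by rw [← hκ, h0, map_zero]))
  have hκπ : κ = algebraMap W K π ^ r := by rw [hκ, hq, map_pow]
  have hτq : τ q = q := by rw [hq, map_pow, hτπ]
  have hσκ : σ κ = κ := by rw [hκ, hσ, hτq]
  have hT : Module.IsTorsionFree W V := Module.IsTorsionFree.trans_faithfulSMul W K V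
  have hFW : ∀ (c : W) x, F (c • x) = τ c • F x := by
    intro c x
    rw [← IsScalarTower.algebraMap_smul K c x, hF, hσ, IsScalarTower.algebraMap_smul]
  have wk : ∀ (c : W) (x : V), algebraMap W K c • x = c • x := fun c x =>
    IsScalarTower.algebraMap_smul K c x
  -- polynomials
  set χ : K[X] := X ^ 6 + C (algebraMap W K s) * X ^ 5 + C (algebraMap W K t) * X ^ 4
      + C (algebraMap W K u) * X ^ 3 + C (κ * algebraMap W K t) * X ^ 2
      + C (κ ^ 2 * algebraMap W K s) * X + C (κ ^ 3) with hχdef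
  obtain ⟨ev, hev⟩ : ∃ ev : K[X] →ₐ[K] Module.End K V, ev = aeval Φ := ⟨_, rfl⟩
  obtain ⟨pΨ, hpΨ⟩ : ∃ p : K[X], p = C κ⁻¹ * X ^ 3 := ⟨_, rfl⟩
  obtain ⟨pg, hpg⟩ : ∃ p : K[X], p = C (-(κ ^ 3)⁻¹) * (X ^ 5 + C (algebraMap W K s) * X ^ 4
      + C (algebraMap W K t) * X ^ 3 + C (algebraMap W K u) * X ^ 2
      + C (κ * algebraMap W K t) * X + C (κ ^ 2 * algebraMap W K s)) := ⟨_, rfl⟩
  obtain ⟨pΨ', hpΨ'⟩ : ∃ p : K[X], p = C (κ ^ 2) * pg ^ 3 := ⟨_, rfl⟩
  have hXg : X * pg = 1 - C (κ ^ 3)⁻¹ * χ := by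
    have h1 : (C (κ ^ 3)⁻¹ : K[X]) * C (κ ^ 3) = 1 := by
      rw [← C_mul, inv_mul_cancel₀ (pow_ne_zero 3 hκ0), C_1]
    simp only [hpg, hχdef, C_neg]
    linear_combination h1
  obtain ⟨α, hα⟩ : ∃ α : W[X] →ₐ[W] K[X], α = aeval pΨ := ⟨_, rfl⟩
  obtain ⟨α', hα'⟩ : ∃ α : W[X] →ₐ[W] K[X], α = aeval pΨ' := ⟨_, rfl⟩
  have evχ : ev χ = 0 := hev ▸ hχ
  have evC : ∀ (c : K) (x : V), ev (C c) x = c • x := by
    intro c x
    rw [hev, aeval_C]
    rfl
  have αC : ∀ c : W, α (C c) = C (algebraMap W K c) := fun c => by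
    rw [hα, aeval_C]; rfl
  have α'C : ∀ c : W, α' (C c) = C (algebraMap W K c) := fun c => by
    rw [hα', aeval_C]; rfl
  have αX : α X = pΨ := by rw [hα, aeval_X]
  have α'X : α' X = pΨ' := by rw [hα', aeval_X]
  have evmul : ∀ (p p' : K[X]) (x : V), ev (p * p') x = ev p (ev p' x) := by
    intro p p' x
    rw [map_mul]; rfl
  have opC : ∀ (c : W) (x : V), ev (α (C c)) x = c • x := by
    intro c x
    rw [αC, evC, wk]
  have opC' : ∀ (c : W) (x : V), ev (α' (C c)) x = c • x := by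
    intro c x
    rw [α'C, evC, wk]
  -- the quotients of `K[X]`
  set P : W[X] := cubePoly q s t a b c d e with hP
  have hPm : P.Monic := cubePoly_monic q s t a b c d e
  have quot : ∀ I : Ideal K[X], χ ∈ I →
      ((Ideal.Quotient.mk I X) ^ 6 + algebraMap W (K[X] ⧸ I) s * (Ideal.Quotient.mk I X) ^ 5
      + algebraMap W (K[X] ⧸ I) t * (Ideal.Quotient.mk I X) ^ 4
      + algebraMap W (K[X] ⧸ I) u * (Ideal.Quotient.mk I X) ^ 3
      + algebraMap W (K[X] ⧸ I) q * algebraMap W (K[X] ⧸ I) t * (Ideal.Quotient.mk I X) ^ 2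
      + algebraMap W (K[X] ⧸ I) q ^ 2 * algebraMap W (K[X] ⧸ I) s * (Ideal.Quotient.mk I X)
      + algebraMap W (K[X] ⧸ I) q ^ 3 = 0) ∧
      (Ideal.Quotient.mk I X * Ideal.Quotient.mk I pg = 1) ∧
      (algebraMap W (K[X] ⧸ I) q * Ideal.Quotient.mk I pΨ = (Ideal.Quotient.mk I X) ^ 3) ∧
      (Ideal.Quotient.mk I pΨ' = algebraMap W (K[X] ⧸ I) q ^ 2 * (Ideal.Quotient.mk I pg) ^ 3) := by
    intro I hI
    have am : ∀ c : W, algebraMap W (K[X] ⧸ I) c = Ideal.Quotient.mk I (C (algebraMap W K c)) :=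
      fun c => rfl
    refine ⟨?_, ?_, ?_, ?_⟩
    · have h1 := Ideal.Quotient.eq_zero_iff_mem.2 hI
      simp only [hχdef, map_add, map_mul, map_pow] at h1
      simp only [am]
      exact h1
    · rw [← map_mul, hXg, map_sub, map_mul, Ideal.Quotient.eq_zero_iff_mem.2 hI, mul_zero,
        sub_zero, map_one]
    · rw [am, ← map_mul, ← map_pow]
      congr 1
      rw [hpΨ, ← mul_assoc, ← C_mul, ← hκ, mul_inv_cancel₀ hκ0, C_1, one_mul]
    · have h1 : pΨ' = (C κ) ^ 2 * pg ^ 3 := by rw [hpΨ', C_pow]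
      rw [h1, map_mul, map_pow, map_pow, am]
  have mkα : ∀ (I : Ideal K[X]) (h : W[X]), Ideal.Quotient.mk I (α h)
      = aeval (Ideal.Quotient.mk I pΨ) h := by
    intro I h
    have := (Polynomial.aeval_algHom_apply (Ideal.Quotient.mkₐ W I) pΨ h)
    rw [hα]
    exact this.symm
  have mkα' : ∀ (I : Ideal K[X]) (h : W[X]), Ideal.Quotient.mk I (α' h)
      = aeval (Ideal.Quotient.mk I pΨ') h := by
    intro I h
    have := (Polynomial.aeval_algHom_apply (Ideal.Quotient.mkₐ W I) pΨ' h)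
    rw [hα']
    exact this.symm
  -- `P (Ψ) = 0`
  have evP : ev (α P) = 0 := by
    have hI : χ ∈ RingHom.ker ev := evχ
    obtain ⟨h1, -, h3, -⟩ := quot (RingHom.ker ev) hI
    have h5 := aeval_cubePoly K q s t u a b c d e hq0 hs ht hc hd hu _ _ h3 h1
    rw [← hP, ← mkα, Ideal.Quotient.eq_zero_iff_mem] at h5
    exact h5
  -- the lattice
  obtain ⟨n₀, hn₀⟩ : ∃ n : ℕ, n = P.natDegree := ⟨_, rfl⟩
  obtain ⟨N, bas⟩ : Σ N : ℕ, Module.Basis (Fin N) K V := ⟨_, Module.finBasis K V⟩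
  obtain ⟨gen, hgen⟩ : ∃ gen : Fin (n₀ + 1) × Fin N → V,
    ∀ i, gen i = ev (pΨ ^ (i.1 : ℕ)) (bas i.2) := ⟨_, fun _ => rfl⟩
  obtain ⟨M₀, hM₀⟩ : ∃ M : Submodule W V, M = Submodule.span W (Set.range gen) := ⟨_, rfl⟩
  have genM : ∀ (i : ℕ) (l : Fin N), i ≤ n₀ → ev (pΨ ^ i) (bas l) ∈ M₀ := by
    intro i l hi
    rw [hM₀]
    exact Submodule.subset_span ⟨(⟨i, Nat.lt_succ_of_le hi⟩, l), hgen _⟩
  have fgM : M₀.FG := hM₀ ▸ Submodule.fg_span (Set.finite_range gen)
  have spM : Submodule.span K (M₀ : Set V) = ⊤ := by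
    rw [eq_top_iff, ← bas.span_eq]
    refine Submodule.span_mono ?_
    rintro _ ⟨l, rfl⟩
    have := genM 0 l (Nat.zero_le _)
    rw [pow_zero, map_one] at this
    exact this
  have evsW : ∀ (p : K[X]) (c : W) (x : V), ev p (c • x) = c • ev p x := by
    intro p c x
    rw [← wk, map_smul, wk]
  have top0 : ∀ l, ev (pΨ ^ (n₀ + 1)) (bas l) ∈ M₀ := by
    intro l
    have h1 : α P = pΨ ^ n₀ + ∑ i ∈ Finset.range n₀, C (algebraMap W K (P.coeff i)) * pΨ ^ i := by
      conv_lhs => rw [hPm.as_sum]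
      rw [map_add, map_pow, αX, map_sum, ← hn₀]
      congr 1
      refine Finset.sum_congr rfl fun i _ => ?_
      rw [map_mul, αC, map_pow, αX]
    have h2 : pΨ ^ (n₀ + 1) = pΨ * α P
        - ∑ i ∈ Finset.range n₀, C (algebraMap W K (P.coeff i)) * pΨ ^ (i + 1) := by
      rw [h1, mul_add, Finset.mul_sum]
      have h3 : ∑ i ∈ Finset.range n₀, pΨ * (C (algebraMap W K (P.coeff i)) * pΨ ^ i)
          = ∑ i ∈ Finset.range n₀, C (algebraMap W K (P.coeff i)) * pΨ ^ (i + 1) := by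
        refine Finset.sum_congr rfl fun i _ => ?_
        ring
      rw [h3]; ring
    rw [h2, map_sub, map_mul, evP, mul_zero, zero_sub, LinearMap.neg_apply, map_sum,
      LinearMap.sum_apply]
    refine Submodule.neg_mem _ (Submodule.sum_mem _ fun i hi => ?_)
    rw [evmul, evC, wk]
    exact M₀.smul_mem _ (genM (i + 1) l (Finset.mem_range.1 hi))
  have stΨ : ∀ x ∈ M₀, ev pΨ x ∈ M₀ := by
    intro x hx
    rw [hM₀] at hx
    refine Submodule.span_induction (p := fun x _ => ev pΨ x ∈ M₀) ?_ ?_ ?_ ?_ hx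
    · rintro _ ⟨⟨i, l⟩, rfl⟩
      rw [hgen, ← evmul, ← pow_succ']
      rcases Nat.lt_or_ge (i : ℕ) n₀ with h | h
      · exact genM _ l h
      · have h1 : (i : ℕ) = n₀ := le_antisymm (Nat.lt_succ_iff.1 i.2) h
        rw [h1]; exact top0 l
    · rw [map_zero]; exact M₀.zero_mem
    · intro x y _ _ hx hy
      rw [map_add]; exact M₀.add_mem hx hy
    · intro c x _ hx
      rw [evsW]; exact M₀.smul_mem _ hx
  have stΨn : ∀ (n : ℕ) (x : V), x ∈ M₀ → ev (pΨ ^ n) x ∈ M₀ := by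
    intro n
    induction n with
    | zero => intro x hx; rw [pow_zero, map_one]; exact hx
    | succ n ih =>
      intro x hx
      rw [pow_succ, evmul]
      exact ih _ (stΨ x hx)
  have stα : ∀ (h : W[X]) (x : V), x ∈ M₀ → ev (α h) x ∈ M₀ := by
    intro h x hx
    induction h using Polynomial.induction_on' with
    | add p p' hp hp' =>
      rw [map_add, map_add, LinearMap.add_apply]
      exact M₀.add_mem hp hp'
    | monomial n c' =>
      rw [← C_mul_X_pow_eq_monomial, map_mul, map_pow, αX, evmul, αC, evC, wk]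
      exact M₀.smul_mem _ (stΨn n x hx)
  -- idempotents
  obtain ⟨m, pe, pw, pb, hm1, hee, hwe, hbe⟩ := exists_idem π P hPm
  have vanish : ∀ h : W[X], P ∣ h → ev (α h) = 0 := by
    rintro _ ⟨h, rfl⟩
    rw [map_mul, map_mul, evP, zero_mul]
  have oee : ev (α (pe * pe)) = ev (α pe) := by
    have := vanish _ hee
    rw [map_sub, map_sub, sub_eq_zero] at this
    exact this
  have owe : ev (α (X * pw)) = ev (α pe) := by
    have := vanish _ hwe
    rw [map_sub, map_sub, sub_eq_zero] at this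
    exact this
  have obe : ev (α ((1 - pe) * X ^ m)) = ev (α (C π * pb)) := by
    have := vanish _ hbe
    rw [map_sub, map_sub, sub_eq_zero] at this
    exact this
  have amul : ∀ (h h' : W[X]), ev (α (h * h')) = ev (α h) * ev (α h') := by
    intro h h'
    rw [map_mul, map_mul]
  have pow1 : ∀ k : ℕ, ev (α (X ^ k * pw ^ k * pe)) = ev (α pe) := by
    intro k
    induction k with
    | zero => rw [pow_zero, pow_zero, one_mul, one_mul]
    | succ k ih =>
      have h1 : X ^ (k + 1) * pw ^ (k + 1) * pe = (X * pw) * (X ^ k * pw ^ k * pe) := by ring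
      rw [h1, amul, owe, ih, ← amul, oee]
  have o1 : ev (α ((1 - pe) * (1 - pe))) = ev (α (1 - pe)) := by
    have h1 : (1 - pe) * (1 - pe) = (1 - pe) + (pe * pe - pe) := by ring
    rw [h1, map_add, map_add]
    have := vanish _ hee
    rw [this, add_zero]
  have pow2 : ∀ k : ℕ, ev (α ((1 - pe) * X ^ (m * k))) = ev (α (C π ^ k * pb ^ k * (1 - pe))) := by
    intro k
    induction k with
    | zero => simp
    | succ k ih =>
      have h1 : ev (α ((1 - pe) * X ^ (m * (k + 1)))) =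
          ev (α (((1 - pe) * X ^ m) * ((1 - pe) * X ^ (m * k)))) := by
        have h2 : ((1 - pe) * X ^ m) * ((1 - pe) * X ^ (m * k))
            = ((1 - pe) * (1 - pe)) * X ^ (m * (k + 1)) := by
          rw [Nat.mul_succ, pow_add]; ring
        rw [h2, amul ((1 - pe) * (1 - pe)), o1, ← amul]
      rw [h1, amul, ih, obe, ← amul]
      congr 2
      ring
  -- `F` commutes with `Ψ`
  have FΦ : ∀ x, F (Φ x) = Φ (F x) := by
    intro x
    rw [hΦ, hΦ, ← Function.iterate_succ_apply' F r x, Function.iterate_succ_apply]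
  have evΦ : ev X = Φ := by rw [hev, aeval_X]
  have FΨ : ∀ x, F (ev pΨ x) = ev pΨ (F x) := by
    intro x
    rw [hpΨ, evmul, evmul, evC, evC, hF, map_inv₀, hσκ, map_pow, evΦ]
    congr 1
    change F (Φ (Φ (Φ x))) = Φ (Φ (Φ (F x)))
    rw [FΦ, FΦ, FΦ]
  have FΨn : ∀ (n : ℕ) (x : V), F (ev (pΨ ^ n) x) = ev (pΨ ^ n) (F x) := by
    intro n
    induction n with
    | zero => intro x; rw [pow_zero, map_one]; rfl
    | succ n ih =>
      intro x
      rw [pow_succ, evmul, evmul, ih, FΨ]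
  -- bounded denominators for `F`
  obtain ⟨S, hS⟩ := fgM
  obtain ⟨δ, hδ0, hδ⟩ := clear_finset M₀ spM (S.image F)
  have hδF : ∀ x ∈ M₀, δ • F x ∈ M₀ := by
    intro x hx
    rw [← hS] at hx
    refine Submodule.span_induction (p := fun x _ => δ • F x ∈ M₀) ?_ ?_ ?_ ?_ hx
    · intro x hx
      exact hδ _ (Finset.mem_image_of_mem F hx)
    · rw [map_zero, smul_zero]; exact M₀.zero_mem
    · intro x y _ _ hx hy
      rw [map_add, smul_add]; exact M₀.add_mem hx hy
    · intro c x _ hx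
      rw [hFW, smul_comm]; exact M₀.smul_mem _ hx
  have fgM : M₀.FG := ⟨S, hS⟩
  have opπ : ∀ (k : ℕ) (h : W[X]) (x : V), ev (α (C π ^ k * h)) x = π ^ k • ev (α h) x := by
    intro k h x
    rw [← C_pow, map_mul, evmul, opC]
  set E : Module.End K V := ev (α pe) with hE
  have evcomm : ∀ (p p' : K[X]) (x : V), ev p (ev p' x) = ev p' (ev p x) := by
    intro p p' x
    rw [← evmul, mul_comm, evmul]
  have hEE : ∀ x, E (E x) = E x := by
    intro x
    have := congrArg (fun f : Module.End K V => f x) oee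
    simp only [map_mul] at this
    exact this
  have hEΨ : ∀ (k : ℕ) (x : V), E x = ev (pΨ ^ k) (ev (α (pw ^ k)) (E x)) := by
    intro k x
    have h1 := congrArg (fun f : Module.End K V => f x) (pow1 k)
    have h2 : ev (α (X ^ k * pw ^ k * pe)) x = ev (pΨ ^ k) (ev (α (pw ^ k)) (E x)) := by
      rw [map_mul α, map_mul α, map_pow α X k, αX, evmul, evmul]
    rw [← h2]
    exact h1.symm
  have hWΨ : ∀ (k : ℕ) (z : V), E z = ev (α (pw ^ k)) (E (ev (pΨ ^ k) z)) := fun k z =>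
    (hEΨ k z).trans (by rw [evcomm (pΨ ^ k) (α (pw ^ k)), hE, evcomm (pΨ ^ k) (α pe)])
  have hBΨ : ∀ (k : ℕ) (x : V), ev (pΨ ^ (m * k)) (x - E x) = π ^ k • ev (α (pb ^ k)) (x - E x) := by
    intro k x
    have := congrArg (fun f : Module.End K V => f x) (pow2 k)
    have h1 : ev (α ((1 - pe) * X ^ (m * k))) x = ev (pΨ ^ (m * k)) (x - E x) := by
      rw [mul_comm, map_mul, evmul, map_pow, αX, map_sub, map_one, map_sub, map_one]
      rfl
    have h2 : ev (α (C π ^ k * pb ^ k * (1 - pe))) x = π ^ k • ev (α (pb ^ k)) (x - E x) := by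
      rw [mul_assoc, opπ, map_mul, evmul, map_sub, map_one, map_sub, map_one]
      rfl
    rw [← h1, ← h2]
    exact this
  have sep := fun x h => separated K π M₀ fgM x h
  have FE0 : ∀ x ∈ M₀, F (E x) = E (F x) := by
    intro x hx
    have a1 : δ • (F (E x) - E (F (E x))) = 0 := by
      refine sep _ fun N => ?_
      set y := ev (α (pw ^ (m * N))) (E x) with hy
      have hyM : y ∈ M₀ := stα _ _ (stα _ _ hx)
      have h1 : F (E x) = ev (pΨ ^ (m * N)) (F y) := by
        rw [hEΨ (m * N) x, FΨn]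
      refine ⟨ev (α (pb ^ N)) (δ • F y - E (δ • F y)), ?_, ?_⟩
      · exact stα _ _ (M₀.sub_mem (hδF y hyM) (stα _ _ (hδF y hyM)))
      · rw [← hBΨ]
        have h2 : E (F (E x)) = ev (pΨ ^ (m * N)) (E (F y)) := by
          rw [h1, hE, evcomm]
        rw [h2, h1, ← map_sub]
        have h3 : E (δ • F y) = δ • E (F y) := evsW _ _ _
        rw [h3, ← smul_sub, evsW]
    have a2 : δ • (E (F (x - E x))) = 0 := by
      refine sep _ fun N => ?_
      set y := ev (α (pb ^ N)) (x - E x) with hy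
      have hyM : y ∈ M₀ := stα _ _ (M₀.sub_mem hx (stα _ _ hx))
      refine ⟨ev (α (pw ^ (m * N))) (E (δ • F y)), ?_, ?_⟩
      · exact stα _ _ (stα _ _ (hδF y hyM))
      · have h1 : ev (pΨ ^ (m * N)) (F (x - E x)) = π ^ N • F y := by
          rw [← FΨn, hBΨ, hFW, map_pow, hτπ]
        have h2 : E (F (x - E x)) = ev (α (pw ^ (m * N))) (E (ev (pΨ ^ (m * N)) (F (x - E x)))) :=
          hWΨ _ _
        rw [h2, h1]
        have h3 : E (δ • F y) = δ • E (F y) := evsW _ _ _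
        have h4 : E (π ^ N • F y) = π ^ N • E (F y) := evsW _ _ _
        rw [h3, h4, evsW, evsW, smul_comm]
    have a3 : F (E x) - E (F (E x)) = 0 := (smul_eq_zero.1 a1).resolve_left hδ0
    have a4 : E (F (x - E x)) = 0 := (smul_eq_zero.1 a2).resolve_left hδ0
    rw [map_sub, map_sub, sub_eq_zero] at a4
    rw [sub_eq_zero] at a3
    rw [a3, a4]
  have FE : ∀ x, F (E x) = E (F x) := by
    intro x
    obtain ⟨ε, hε0, hε⟩ := clear_one M₀ spM x
    have h1 := FE0 _ hε
    have h2 : E (ε • x) = ε • E x := evsW _ _ _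
    rw [h2, hFW, hFW] at h1
    have h3 : E (τ ε • F x) = τ ε • E (F x) := evsW _ _ _
    rw [h3, ← sub_eq_zero, ← smul_sub] at h1
    have hτε : τ ε ≠ 0 := by
      intro h0
      exact hε0 (τ.injective (by rw [h0, map_zero]))
    exact sub_eq_zero.1 ((smul_eq_zero.1 h1).resolve_left hτε)
  -- the two halves
  obtain ⟨N₁, mem₁⟩ : ∃ N₁ : Submodule K V, ∀ x, x ∈ N₁ ↔ E x = x :=
    ⟨LinearMap.ker (E - 1), fun x => by
      rw [LinearMap.mem_ker, LinearMap.sub_apply, Module.End.one_apply, sub_eq_zero]⟩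
  obtain ⟨N₂, mem₂⟩ : ∃ N₂ : Submodule K V, ∀ x, x ∈ N₂ ↔ E x = 0 :=
    ⟨LinearMap.ker E, fun x => LinearMap.mem_ker⟩
  -- the form
  obtain ⟨x₀, hx₀⟩ := exists_ne (0 : V)
  set πK : K := algebraMap W K π with hπK
  have hπK0 : πK ≠ 0 := by
    intro h0
    exact hπ0 (injWK (by rw [← hπK, h0, map_zero]))
  have hσπ : σ πK = πK := by rw [hπK, hσ, hτπ]
  have Fiter : ∀ (j : ℕ) (c : K) (x : V), F^[j] (c • x) = σ^[j] c • F^[j] x := by
    intro j
    induction j with
    | zero => intro c x; rfl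
    | succ j ih =>
      intro c x
      rw [Function.iterate_succ_apply', Function.iterate_succ_apply', Function.iterate_succ_apply',
        ih, hF]
  have hσr : ∀ c : K, σ^[r] c = c := by
    intro c
    have h1 : Φ (c • x₀) = c • Φ x₀ := map_smul _ _ _
    rw [hΦ, hΦ, Fiter, ← sub_eq_zero, ← sub_smul] at h1
    have h2 : F^[r] x₀ ≠ 0 := by
      intro h0
      apply hx₀
      have h3 : F^[r] (0 : V) = 0 := by
        have := Fiter r 0 (0 : V)
        rw [smul_zero] at this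
        rw [this]
        have h4 : σ^[r] (0 : K) = 0 := by
          clear * -
          induction r with
          | zero => rfl
          | succ j ih => rw [Function.iterate_succ_apply', ih, map_zero]
        rw [h4, zero_smul]
      exact (F.injective.iterate r) (by rw [h0, h3])
    exact sub_eq_zero.1 ((smul_eq_zero.1 h1).resolve_right h2)
  have ψiter : ∀ (j : ℕ) (x y : V), ψ (F^[j] x) (F^[j] y) = πK ^ j * σ^[j] (ψ x y) := by
    intro j
    induction j with
    | zero => intro x y; simp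
    | succ j ih =>
      intro x y
      rw [Function.iterate_succ_apply', Function.iterate_succ_apply', hψ, ih, map_mul, map_pow,
        hσπ, Function.iterate_succ_apply', pow_succ]
      ring
  have ψΦ : ∀ x y, ψ (Φ x) (Φ y) = κ * ψ x y := by
    intro x y
    rw [hΦ, hΦ, ψiter, hσr, hκπ]
  have evΨ : ∀ x, ev pΨ x = κ⁻¹ • Φ (Φ (Φ x)) := by
    intro x
    rw [hpΨ, evmul, evC, map_pow, evΦ]
    rfl
  have ψΨ : ∀ x y, ψ (ev pΨ x) (ev pΨ y) = κ * ψ x y := by
    intro x y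
    rw [evΨ, evΨ, map_smul, map_smul, LinearMap.smul_apply, ψΦ, ψΦ, ψΦ, smul_eq_mul, smul_eq_mul]
    field_simp
  have ψΨn : ∀ (n : ℕ) (x y : V), ψ (ev (pΨ ^ n) x) (ev (pΨ ^ n) y) = κ ^ n * ψ x y := by
    intro n
    induction n with
    | zero => intro x y; simp
    | succ n ih =>
      intro x y
      rw [pow_succ, evmul, evmul, ih, ψΨ, pow_succ]
      ring
  obtain ⟨η, hη0, hη⟩ := bounded_form M₀ fgM ψ
  have iso0 : ∀ x ∈ M₀, ∀ y ∈ M₀, E x = x → E y = y → ψ x y = 0 := by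
    intro x hx y hy ex ey
    obtain ⟨c₀, hc₀⟩ := hη x hx y hy
    have h1 : c₀ = 0 := by
      refine IsHausdorff.haus hcomp.toIsHausdorff _ fun n => ?_
      rw [smodEq_iff]
      have hx1 : x = ev (pΨ ^ n) (ev (α (pw ^ n)) x) := by
        have := hEΨ n x
        rw [ex] at this
        exact this
      have hy1 : y = ev (pΨ ^ n) (ev (α (pw ^ n)) y) := by
        have := hEΨ n y
        rw [ey] at this
        exact this
      obtain ⟨c₁, hc₁⟩ := hη _ (stα (pw ^ n) x hx) _ (stα (pw ^ n) y hy)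
      refine ⟨π ^ ((r - 1) * n) * c₁, ?_⟩
      apply injWK
      rw [sub_zero, ← hc₀, hx1, hy1, ψΨn]
      have h2 : π ^ n • (π ^ ((r - 1) * n) * c₁) = q ^ n * c₁ := by
        rw [smul_eq_mul, ← mul_assoc, ← pow_add, hq, ← pow_mul]
        congr 2
        obtain ⟨r', rfl⟩ := Nat.exists_eq_add_of_le hr
        rw [Nat.add_sub_cancel_left]
        ring
      have h5 : algebraMap W K (q ^ n * c₁) = κ ^ n * algebraMap W K c₁ := by
        rw [map_mul, map_pow]
      rw [h2, h5, ← hc₁]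
      ring
    rw [h1, map_zero] at hc₀
    have h3 : algebraMap W K η ≠ 0 := by
      intro h0
      exact hη0 (injWK (by rw [h0, map_zero]))
    exact (mul_eq_zero.1 hc₀).resolve_left h3
  have iso₁ : ∀ x y, E x = x → E y = y → ψ x y = 0 := by
    intro x y ex ey
    obtain ⟨ε, hε0, hε⟩ := clear_one M₀ spM x
    obtain ⟨ε', hε'0, hε'⟩ := clear_one M₀ spM y
    have ne : ∀ z : W, z ≠ 0 → algebraMap W K z ≠ 0 := by
      intro z hz h0
      exact hz (injWK (by rw [h0, map_zero]))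
    have h1 := iso0 _ hε _ hε' (by rw [evsW, ex]) (by rw [evsW, ey])
    rw [← wk, ← wk, map_smul, map_smul, LinearMap.smul_apply, smul_eq_mul, smul_eq_mul] at h1
    exact (mul_eq_zero.1 ((mul_eq_zero.1 h1).resolve_left (ne _ hε'0))).resolve_left (ne _ hε0)
  -- adjoints
  have evg : ∀ x, Φ (ev pg x) = x := by
    intro x
    have h1 : ev (X * pg) x = x := by
      rw [hXg, map_sub, map_mul, evχ, mul_zero, sub_zero, map_one]
      rfl
    rw [evmul, evΦ] at h1
    exact h1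
  have adjΦ : ∀ x y, ψ (Φ x) y = κ * ψ x (ev pg y) := by
    intro x y
    rw [← ψΦ, evg]
  have adjΨ : ∀ x y, ψ (ev pΨ x) y = ψ x (ev pΨ' y) := by
    intro x y
    have h1 : ev pΨ' y = κ ^ 2 • ev pg (ev pg (ev pg y)) := by
      rw [hpΨ', evmul, evC, map_pow]
      rfl
    rw [evΨ, map_smul, LinearMap.smul_apply, adjΦ, adjΦ, adjΦ, h1, map_smul, smul_eq_mul,
      smul_eq_mul]
    field_simp
  have adjn : ∀ (n : ℕ) (x y : V), ψ (ev (pΨ ^ n) x) y = ψ x (ev (pΨ' ^ n) y) := by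
    intro n
    induction n with
    | zero => intro x y; simp
    | succ n ih =>
      intro x y
      rw [pow_succ, evmul, ih, adjΨ, pow_succ', evmul]
  have adj : ∀ (h : W[X]) (x y : V), ψ (ev (α h) x) y = ψ x (ev (α' h) y) := by
    intro h x y
    induction h using Polynomial.induction_on' with
    | add p p' hp hp' =>
      rw [map_add, map_add, map_add, map_add, LinearMap.add_apply, LinearMap.add_apply, map_add,
        map_add, LinearMap.add_apply, hp, hp']
    | monomial n c' =>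
      rw [← C_mul_X_pow_eq_monomial, map_mul α, map_mul α', map_pow α, map_pow α', αX, α'X,
        evmul, evmul, αC, α'C, evC, evC, map_smul, LinearMap.smul_apply, map_smul, adjn]
  -- the middle part vanishes
  have mid : ∀ y, E y = 0 → (∀ z, E z = z → ψ z y = 0) → y = 0 := by
    let I : Ideal K[X] :=
      { carrier := {h | ∀ y, E y = 0 → (∀ z, E z = z → ψ z y = 0) → ev h y = 0}
        add_mem' := by
          intro p p' hp hp' y h1 h2
          rw [map_add, LinearMap.add_apply, hp y h1 h2, hp' y h1 h2, add_zero]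
        zero_mem' := by
          intro y _ _
          rw [map_zero, LinearMap.zero_apply]
        smul_mem' := by
          intro p p' hp' y h1 h2
          rw [smul_eq_mul, evmul, hp' y h1 h2, map_zero] }
    have memI : ∀ h : K[X], h ∈ I ↔ ∀ y, E y = 0 → (∀ z, E z = z → ψ z y = 0) → ev h y = 0 :=
      fun h => Iff.rfl
    have hχI : χ ∈ I := by
      rw [memI]
      intro y _ _
      rw [evχ]; rfl
    obtain ⟨q1, q2, q3, q4⟩ := quot I hχI
    have am : ∀ c : W, algebraMap W (K[X] ⧸ I) c = Ideal.Quotient.mk I (C (algebraMap W K c)) :=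
      fun c => rfl
    have r1 := aeval_cubePoly K q s t u a b c d e hq0 hs ht hc hd hu _ _ q3 q1
    have r2 : aeval (Ideal.Quotient.mk I pΨ') P = 0 := by
      refine aeval_cubePoly K q s t u a b c d e hq0 hs ht hc hd hu
        (algebraMap W (K[X] ⧸ I) q * Ideal.Quotient.mk I pg) _ ?_ ?_
      · rw [q4]; ring
      · exact recip_eq _ _ _ _ _ _ q2 q1
    have i1 : IsIntegral W (Ideal.Quotient.mk I pΨ) := ⟨P, hPm, r1⟩
    have i2 : IsIntegral W (Ideal.Quotient.mk I pΨ') := ⟨P, hPm, r2⟩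
    have obe' : ∀ z, ev (pΨ ^ m) (z - E z) = π • ev (α pb) z := by
      intro z
      have h0 := congrArg (fun f : Module.End K V => f z) obe
      have h1 : ev (α ((1 - pe) * X ^ m)) z = ev (pΨ ^ m) (z - E z) := by
        rw [mul_comm, map_mul α, evmul, map_pow α, αX, map_sub α, map_one α, map_sub ev, map_one ev]
        rfl
      have h2 : ev (α (C π * pb)) z = π • ev (α pb) z := by
        rw [map_mul α, evmul, opC]
      rw [← h1, ← h2]
      exact h0
    have j1 : (Ideal.Quotient.mk I pΨ) ^ m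
        = algebraMap W (K[X] ⧸ I) π * aeval (Ideal.Quotient.mk I pΨ) pb := by
      rw [← mkα, am, ← map_pow, ← map_mul, Ideal.Quotient.eq, memI]
      intro y h1 h2
      have h3 := obe' y
      rw [h1, sub_zero] at h3
      rw [map_sub, LinearMap.sub_apply, h3, evmul, evC, wk, sub_self]
    have j2 : (Ideal.Quotient.mk I pΨ') ^ m
        = algebraMap W (K[X] ⧸ I) π * aeval (Ideal.Quotient.mk I pΨ') pb := by
      rw [← mkα', am, ← map_pow, ← map_mul, Ideal.Quotient.eq, memI]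
      intro y h1 h2
      apply hN.2
      intro z
      rw [map_sub, LinearMap.sub_apply, evmul, evC, map_sub, ← adjn, map_smul, ← adj, smul_eq_mul]
      have h4 : ev (pΨ ^ m) z = π • ev (α pb) z + ev (pΨ ^ m) (E z) := by
        rw [← obe', ← map_add, sub_add_cancel]
      have h5 : E (ev (pΨ ^ m) (E z)) = ev (pΨ ^ m) (E z) := by
        have h6 : E (ev (pΨ ^ m) (E z)) = ev (pΨ ^ m) (E (E z)) := by rw [hE, evcomm]
        rw [h6, hEE]
      rw [h4, map_add, LinearMap.add_apply, h2 _ h5, add_zero, ← wk, map_smul,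
        LinearMap.smul_apply, smul_eq_mul, sub_self]
    have h1 := one_eq_zero (K := K) π hπ0 hπu q s t u a b e hq0 hs ht hu he
      (Ideal.Quotient.mk I X) (Ideal.Quotient.mk I pg) (Ideal.Quotient.mk I pΨ)
      (Ideal.Quotient.mk I pΨ') q2 q3 q4 q1 i1 i2 m m _ _ (isIntegral_aeval' _ i1 pb)
      (isIntegral_aeval' _ i2 pb) j1 j2
    have h2 : (1 : K[X]) ∈ I := by
      rw [← Ideal.Quotient.eq_zero_iff_mem, map_one]
      exact h1
    intro y h3 h4
    have h5 := (memI 1).1 h2 y h3 h4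
    rw [map_one] at h5
    exact h5
  -- the second half is isotropic
  have EE' : ∀ y, E (ev (α' pe) y) = 0 := by
    intro y
    have h1 : E (ev (α' pe) y) = ev (α' pe) (E y) := by rw [hE, evcomm]
    rw [h1]
    apply hN.2
    intro z
    rw [← adj, ← hE]
    exact iso₁ _ _ (hEE z) (hEE y)
  have fix : ∀ y, E y = 0 → ev (α' pe) y = y := by
    intro y hy
    have h1 : y - ev (α' pe) y = 0 := by
      refine mid _ ?_ ?_
      · rw [map_sub, hy, EE', sub_zero]
      · intro z hz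
        rw [map_sub, ← adj, ← hE, hz, sub_self]
    exact (sub_eq_zero.1 h1).symm
  have iso₂ : ∀ x y, E x = 0 → E y = 0 → ψ x y = 0 := by
    intro x y hx hy
    rw [← fix y hy, ← adj, ← hE, hx, map_zero, LinearMap.zero_apply]
  -- the first half is not zero
  have ne₁ : N₁ ≠ ⊥ := by
    intro h0
    apply hx₀
    have h1 : ∀ z, E z = z → z = 0 := by
      intro z hz
      have := (mem₁ z).2 hz
      rw [h0] at this
      exact (Submodule.mem_bot K).1 this
    refine mid x₀ (h1 _ (hEE x₀)) ?_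
    intro z hz
    rw [h1 z hz, map_zero, LinearMap.zero_apply]
  -- the lattice with `F³ L = π L`
  obtain ⟨L, fgL, spL, hL⟩ : ∃ L : Submodule W V, L.FG ∧ Submodule.span K (L : Set V) = N₁ ∧
      ∀ z, (∃ x ∈ L, z = F (F (F x))) ↔ ∃ x ∈ L, z = π • x := by
    have memL₁ : ∀ x, x ∈ M₀ ⊓ N₁.restrictScalars W ↔ x ∈ M₀ ∧ E x = x := by
      intro x
      rw [Submodule.mem_inf, Submodule.restrictScalars_mem, mem₁]
    refine exists_unit_lattice τ σ hσ π hπ0 hτπ F hF r hr N₁ ?_ (M₀ ⊓ N₁.restrictScalars W) ?_ ?_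
      ?_ (fun x => ev pΨ x) ?_ ?_ ?_
    · intro x hx
      rw [mem₁] at hx ⊢
      rw [← FE, hx]
    · have h1 : IsNoetherian W M₀ := isNoetherian_of_fg_of_noetherian M₀ fgM
      have h2 : IsNoetherian W (M₀ ⊓ N₁.restrictScalars W : Submodule W V) :=
        isNoetherian_of_le (inf_le_left : M₀ ⊓ N₁.restrictScalars W ≤ M₀)
      rw [← Module.Finite.iff_fg]
      infer_instance
    · intro x hx
      exact (mem₁ x).2 ((memL₁ x).1 hx).2
    · intro x hx
      obtain ⟨ε, hε0, hε⟩ := clear_one M₀ spM x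
      exact ⟨ε, hε0, (memL₁ _).2 ⟨hε, by rw [evsW, (mem₁ x).1 hx]⟩⟩
    · intro x
      rw [evΨ, hΦ, hΦ, hΦ, hκπ, inv_pow]
    · intro x hx
      obtain ⟨h1, h2⟩ := (memL₁ x).1 hx
      refine (memL₁ _).2 ⟨stΨ x h1, ?_⟩
      have h3 : E (ev pΨ x) = ev pΨ (E x) := by rw [hE, evcomm]
      rw [h3, h2]
    · intro x hx
      obtain ⟨h1, h2⟩ := (memL₁ x).1 hx
      have h3 := hEΨ 1 x
      rw [h2, pow_one, pow_one] at h3
      refine ⟨ev (α pw) x, (memL₁ _).2 ⟨stα _ _ h1, ?_⟩, h3⟩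
      have h4 : E (ev (α pw) x) = ev (α pw) (E x) := by rw [hE, evcomm]
      rw [h4, h2]
  refine ⟨N₁, N₂, ?_, ?_, ?_, ?_, ?_, ne₁, L, fgL, spL, hL⟩
  · constructor
    · rw [Submodule.disjoint_def]
      intro x h1 h2
      rw [← (mem₁ x).1 h1]
      exact (mem₂ x).1 h2
    · rw [codisjoint_iff, eq_top_iff]
      intro x _
      refine Submodule.mem_sup.2 ⟨E x, (mem₁ _).2 (hEE x), x - E x, (mem₂ _).2 ?_, by abel⟩
      rw [map_sub, hEE, sub_self]
  · intro x hx y hy
    exact iso₁ x y ((mem₁ x).1 hx) ((mem₁ y).1 hy)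
  · intro x hx y hy
    exact iso₂ x y ((mem₂ x).1 hx) ((mem₂ y).1 hy)
  · intro x
    rw [mem₁, mem₁, ← FE]
    exact F.injective.eq_iff
  · intro x
    rw [mem₂, mem₂, ← FE]
    constructor
    · intro h
      exact F.injective (by rw [h, map_zero])
    · intro h
      rw [h, map_zero]

end Pool.Agent.Helper98.HJ
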