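import Pool.Agent.Helper98.HJ.Defs
import Pool.Agent.Helper98.HJ.SelfDual
import Pool.Agent.Helper98.HJ.Split

/-!
# Self-dual lattices with `a`-number at least two over the Witt vectors
-/

namespace Pool.Agent.Helper98.HJ

open Polynomial

section Witt

variable (p : ℕ) [Fact p.Prime] (k : Type) [Field k] [CharP k p]

theorem not_isUnit_p : ¬ IsUnit (p : WittVector p k) := (WittVector.irreducible p).not_isUnit

theorem p_ne_zero : (p : WittVector p k) ≠ 0 := (WittVector.irreducible p).ne_zero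

variable [PerfectRing k p]

theorem frob_algebraMap (K : Type) [Field K] [Algebra (WittVector p k) K]
    [IsFractionRing (WittVector p k) K] (c : WittVector p k) :
    frob p k K (algebraMap (WittVector p k) K c) =
      algebraMap (WittVector p k) K (WittVector.frobeniusEquiv p k c) :=
  IsFractionRing.ringEquivOfRingEquiv_algebraMap (WittVector.frobeniusEquiv p k) c

theorem finite_quot [Finite k] :
    Finite (WittVector p k ⧸ Ideal.span {(p : WittVector p k)}) := by
  have h : ∀ x ∈ Ideal.span {(p : WittVector p k)}, WittVector.constantCoeff x = 0 := fun x hx =>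
    (WittVector.mem_span_p_iff_coeff_zero_eq_zero x).1 hx
  refine Finite.of_injective (Ideal.Quotient.lift (Ideal.span {(p : WittVector p k)})
    (WittVector.constantCoeff : WittVector p k →+* k) h) ?_
  rw [injective_iff_map_eq_zero]
  intro x hx
  obtain ⟨y, rfl⟩ := Ideal.Quotient.mk_surjective x
  rw [Ideal.Quotient.lift_mk] at hx
  exact Ideal.Quotient.eq_zero_iff_mem.2 ((WittVector.mem_span_p_iff_coeff_zero_eq_zero y).2 hx)

theorem isUnit_intCast (e : ℤ) (he : ¬ (p : ℤ) ∣ e) : IsUnit (e : WittVector p k) := by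
  have hcop : IsCoprime (p : ℤ) e :=
    (Nat.prime_iff_prime_int.1 (Fact.out : p.Prime)).coprime_iff_not_dvd.2 he
  obtain ⟨x, y, hxy⟩ := hcop
  have h1 : (p : WittVector p k) ∈ (⊥ : Ideal (WittVector p k)).jacobson :=
    IsAdicComplete.le_jacobson_bot (Ideal.span {(p : WittVector p k)})
      (Ideal.mem_span_singleton_self _)
  have h2 := (Ideal.mem_jacobson_bot.1 h1) (-(x : WittVector p k))
  have h3 : (p : WittVector p k) * -(x : WittVector p k) + 1 = (e : WittVector p k) * y := by
    have := congrArg (fun z : ℤ => (z : WittVector p k)) hxy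
    push_cast at this
    rw [← this]; ring
  rw [h3] at h2
  exact isUnit_of_mul_isUnit_left h2

end Witt

/-- The integers `a, b, c, d, e` attached to a polynomial with first slope `1/3`. -/
theorem FirstSlope.exists_coeffs {p r : ℕ} {w : ℤ × ℤ × ℤ}
    (hw : FirstSlope p r w) :
    ∃ a b c d e : ℤ, w.1 ^ 3 = (p : ℤ) ^ r * a ∧ w.2.1 ^ 3 = ((p : ℤ) ^ r) ^ 2 * b ∧
      w.1 * w.2.1 = (p : ℤ) ^ r * c ∧ w.2.1 ^ 2 = (p : ℤ) ^ r * d ∧ w.2.2 = (p : ℤ) ^ r * e ∧
      ¬ (p : ℤ) ∣ e := by
  obtain ⟨⟨a, ha⟩, ⟨b, hb⟩, ⟨e, he⟩, hne⟩ := hw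
  have hb' : w.2.1 ^ 3 = ((p : ℤ) ^ r) ^ 2 * b := by
    rw [hb, ← pow_mul, mul_comm r 2]
  obtain ⟨c, hc⟩ : (p : ℤ) ^ r ∣ w.1 * w.2.1 := by
    rw [← Int.pow_dvd_pow_iff (n := 3) (by norm_num)]
    refine ⟨a * b, ?_⟩
    rw [mul_pow, ha, hb']; ring
  obtain ⟨d, hd⟩ : (p : ℤ) ^ r ∣ w.2.1 ^ 2 := by
    rw [← Int.pow_dvd_pow_iff (n := 3) (by norm_num)]
    refine ⟨(p : ℤ) ^ r * b ^ 2, ?_⟩
    have : (w.2.1 ^ 2) ^ 3 = (w.2.1 ^ 3) ^ 2 := by ring
    rw [this, hb']; ring
  refine ⟨a, b, c, d, e, ha, hb', hc, hd, he, ?_⟩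
  rintro ⟨e', rfl⟩
  exact hne ⟨e', by rw [he]; ring⟩

/-- A polarised isocrystal over the field with `p^r` elements whose `F^r` has a characteristic
polynomial of first slope `1/3` contains a self-dual Dieudonné lattice of `a`-number `≥ 2`. -/
theorem exists_lattice (p : ℕ) [Fact p.Prime] (k : Type) [Field k] [Finite k] [CharP k p]
    (r : ℕ) (hk : Nat.card k = p ^ r)
    (K V : Type) [Field K] [Algebra (WittVector p k) K] [IsFractionRing (WittVector p k) K]
    [AddCommGroup V] [Module K V] [FiniteDimensional K V] [Module (WittVector p k) V]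
    [IsScalarTower (WittVector p k) K V]
    (D : PolIsocrystal p k K V) (w : ℤ × ℤ × ℤ)
    (hD : D.HasWeil r w) (hw : FirstSlope p r w) :
    ∃ M : Submodule (WittVector p k) V, D.IsSelfDual M ∧ 2 ≤ D.aNumber M := by
  have hr : 1 ≤ r := by
    rcases Nat.eq_zero_or_pos r with h | h
    · exfalso
      rw [h, pow_zero] at hk
      have : 1 < Nat.card k := Finite.one_lt_card
      omega
    · exact h
  obtain ⟨a, b, c, d, e, ha, hb, hc, hd, he, hne⟩ := hw.exists_coeffs
  obtain ⟨Φ, hΦ, hchar⟩ := hD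
  have hchar' : Φ.charpoly = X ^ 6 + C ((w.1 : ℤ) : K) * X ^ 5
      + C ((w.2.1 : ℤ) : K) * X ^ 4 + C ((w.2.2 : ℤ) : K) * X ^ 3
      + C ((p : K) ^ r * ((w.2.1 : ℤ) : K)) * X ^ 2
      + C (((p : K) ^ r) ^ 2 * ((w.1 : ℤ) : K)) * X + C (((p : K) ^ r) ^ 3) := by
    rw [hchar]
    simp only [weilPoly, Polynomial.map_add, Polynomial.map_mul, Polynomial.map_pow,
      Polynomial.map_X, map_intCast, map_natCast, map_pow, map_mul,
      Nat.cast_pow, eq_intCast, Polynomial.map_natCast, Polynomial.map_intCast]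
  have hnt : Nontrivial V := by
    have h1 : Φ.charpoly.natDegree = 6 := by
      rw [hchar']
      compute_degree!
    rw [LinearMap.charpoly_natDegree] at h1
    exact Module.nontrivial_of_finrank_pos (R := K) (by omega)
  have hfin : Finite (WittVector p k ⧸ Ideal.span {(p : WittVector p k)}) := finite_quot p k
  have cast : ∀ {x y : ℤ}, x = y → (x : WittVector p k) = (y : WittVector p k) :=
    fun h => by rw [h]
  have ha' := cast ha
  have hb' := cast hb
  have hc' := cast hc
  have hd' := cast hd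
  have he' := cast he
  push_cast at ha' hb' hc' hd' he'
  have hχ : aeval Φ (X ^ 6 + C (algebraMap (WittVector p k) K (w.1 : WittVector p k)) * X ^ 5
      + C (algebraMap (WittVector p k) K (w.2.1 : WittVector p k)) * X ^ 4
      + C (algebraMap (WittVector p k) K (w.2.2 : WittVector p k)) * X ^ 3
      + C (algebraMap (WittVector p k) K ((p : WittVector p k) ^ r)
        * algebraMap (WittVector p k) K (w.2.1 : WittVector p k)) * X ^ 2
      + C (algebraMap (WittVector p k) K ((p : WittVector p k) ^ r) ^ 2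
        * algebraMap (WittVector p k) K (w.1 : WittVector p k)) * X
      + C (algebraMap (WittVector p k) K ((p : WittVector p k) ^ r) ^ 3) :
        K[X]) = 0 := by
    have h1 := LinearMap.aeval_self_charpoly Φ
    rw [hchar'] at h1
    have e1 : algebraMap (WittVector p k) K (w.1 : WittVector p k) = ((w.1 : ℤ) : K) :=
      map_intCast _ _
    have e2 : algebraMap (WittVector p k) K (w.2.1 : WittVector p k) = ((w.2.1 : ℤ) : K) :=
      map_intCast _ _
    have e3 : algebraMap (WittVector p k) K (w.2.2 : WittVector p k) = ((w.2.2 : ℤ) : K) :=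
      map_intCast _ _
    have e4 : algebraMap (WittVector p k) K ((p : WittVector p k) ^ r) = (p : K) ^ r := by
      rw [map_pow, map_natCast]
    rw [e1, e2, e3, e4]
    exact h1
  obtain ⟨N₁, N₂, h1, h2, h3, h4, h5, h6, L, h7, h8, h9⟩ := slope_split
    (WittVector.frobeniusEquiv p k) (frob p k K) (frob_algebraMap p k K)
    (p : WittVector p k) (p_ne_zero p k) (not_isUnit_p p k) (map_natCast _ p) D.F D.semilinear
    D.ψ D.nondeg (by intro x y; rw [map_natCast]; exact D.compat x y) r hr Φ hΦ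
    (w.1 : WittVector p k) (w.2.1 : WittVector p k) (w.2.2 : WittVector p k)
    (a : WittVector p k) (b : WittVector p k) (c : WittVector p k) (d : WittVector p k)
    (e : WittVector p k) ha' hb' hc' hd' he' (isUnit_intCast p k e hne) hχ
  obtain ⟨M, m1, m2, m3, m4, m5, m6⟩ := exists_selfDual
    (WittVector.frobeniusEquiv p k) (frob p k K) (frob_algebraMap p k K)
    (p : WittVector p k) (p_ne_zero p k) (not_isUnit_p p k) (map_natCast _ p) D.F D.semilinear
    D.ψ D.alt D.nondeg (by intro x y; rw [map_natCast]; exact D.compat x y) N₁ N₂ h1 h2 h3 h4 h5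
    h6 L h7 h8 h9
  exact ⟨M, ⟨m1, m2, m3, m4, m5⟩, m6⟩

end Pool.Agent.Helper98.HJ
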