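import Pool.Agent.Helper98.HJ.Three
import Pool.Agent.Helper98.HJ.Witt

/-!
# The deduction for isogeny classes of first slope 1/3 over `F_(2^r)`
-/

namespace Pool.Agent.Helper98.HJ

/-- The Hasse-Witt matrix of a smooth plane quartic in characteristic `2` has rank at least `2`,
so `3 - rank` cannot be an `a`-number `≥ 2`. -/
theorem quartic_ne {K : Type} [Field K] [IsAlgClosed K] [CharP K 2]
    (G : MvPolynomial (Fin 3) K) (hG : IsSmoothQuartic G) (n : ℕ∞) (hn : 2 ≤ n) :
    ((hasseWitt G).rank : ℕ∞) + n ≠ 3 := by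
  intro h
  obtain ⟨hG1, hG2⟩ := hG
  have hrk : (hasseWitt G).rank ≤ 1 := by
    by_contra hcon
    push Not at hcon
    have h4 : (2 : ℕ∞) ≤ ((hasseWitt G).rank : ℕ∞) := by exact_mod_cast hcon
    have h5 : (2 : ℕ∞) + 2 ≤ 3 := by
      rw [← h]
      exact add_le_add h4 hn
    have h6 : ((2 + 2 : ℕ) : ℕ∞) ≤ ((3 : ℕ) : ℕ∞) := by exact_mod_cast h5
    have h7 : 2 + 2 ≤ 3 := by exact_mod_cast h6
    omega
  obtain ⟨v, hv0, hv1, hv2⟩ := quartic_singular G hG1 hrk
  obtain ⟨i, hi⟩ := hG2 v hv0 hv1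
  exact hi (hv2 i)

/-- The reduction: with the theorems of the literature collected in `Threefolds`, every isogeny
class with first slope `1/3` contains the Jacobian of a curve `y^2 + y = f(x)`, `deg f = 7`. -/
theorem hyperelliptic_of_threefolds (k : Type) [Field k] [Finite k] [CharP k 2] (r : ℕ)
    (hk : Nat.card k = 2 ^ r)
    (K V : Type) [Field K] [Algebra (WittVector 2 k) K] [IsFractionRing (WittVector 2 k) K]
    [AddCommGroup V] [Module K V] [FiniteDimensional K V] [Module (WittVector 2 k) V]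
    [IsScalarTower (WittVector 2 k) K V]
    (T : Threefolds k r K V) (w : ℤ × ℤ × ℤ) (hw : w ∈ T.classes)
    (hs : FirstSlope 2 r w) : IsHyperelliptic k w := by
  obtain ⟨A, rfl⟩ := T.howe w hw hs
  obtain ⟨D, hD, hlat⟩ := T.dieudonne A
  obtain ⟨M, hM, hM2⟩ := exists_lattice 2 k r hk K V D (T.weil A) hD hs
  obtain ⟨A', hA', haA'⟩ := hlat M hM
  rcases T.torelli A' (by rw [hA']; exact hs) with h | ⟨G, hG, hG3⟩
  · rw [← hA']; exact h
  · exfalso
    rw [haA'] at hG3
    have : CharP (AlgebraicClosure k) 2 := charP_of_injective_algebraMap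
      (algebraMap k (AlgebraicClosure k)).injective 2
    exact quartic_ne G hG _ hM2 hG3

end Pool.Agent.Helper98.HJ
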