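import Mathlib

/-!
# Polarised isocrystals, Weil polynomials of first slope 1/3, self-dual Dieudonné lattices
-/

namespace Pool.Agent.Helper98.HJ

open Polynomial

/-- The polynomial `x^6 + s x^5 + t x^4 + u x^3 + q t x^2 + q^2 s x + q^3` for `w = (s, t, u)`. -/
noncomputable def weilPoly (q : ℕ) (w : ℤ × ℤ × ℤ) : ℤ[X] :=
  X ^ 6 + C w.1 * X ^ 5 + C w.2.1 * X ^ 4 + C w.2.2 * X ^ 3 + C ((q : ℤ) * w.2.1) * X ^ 2
    + C ((q : ℤ) ^ 2 * w.1) * X + C ((q : ℤ) ^ 3)

/-- First slope `1/3` over a field with `p^r` elements: `3 v(s) ≥ r`, `3 v(t) ≥ 2 r`,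
`v(u) = r` for the `p`-adic valuation `v` and `w = (s, t, u)`. -/
def FirstSlope (p r : ℕ) (w : ℤ × ℤ × ℤ) : Prop :=
  (p : ℤ) ^ r ∣ w.1 ^ 3 ∧ (p : ℤ) ^ (2 * r) ∣ w.2.1 ^ 3 ∧
    (p : ℤ) ^ r ∣ w.2.2 ∧ ¬ (p : ℤ) ^ (r + 1) ∣ w.2.2

section

variable (p : ℕ) [Fact p.Prime] (k : Type) [Field k] [CharP k p] [PerfectRing k p]
  (K V : Type) [Field K] [Algebra (WittVector p k) K] [IsFractionRing (WittVector p k) K]
  [AddCommGroup V] [Module K V]

/-- The Frobenius automorphism of the field of fractions `K` of the Witt vectors of the perfect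
field `k`. -/
noncomputable def frob : K ≃+* K :=
  IsFractionRing.ringEquivOfRingEquiv (WittVector.frobeniusEquiv p k)

/-- A polarised isocrystal over the perfect field `k` of characteristic `p` on the `K`-vector space
`V`, where `K = Frac W(k)` has Frobenius `φ`: a `φ`-semilinear bijection `F` of `V` and a
nondegenerate alternating form `ψ` with `ψ (F x) (F y) = p φ (ψ x y)`. -/
structure PolIsocrystal where
  F : V ≃+ V
  semilinear : ∀ (c : K) (x : V), F (c • x) = frob p k K c • F x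
  ψ : LinearMap.BilinForm K V
  alt : ψ.IsAlt
  nondeg : ψ.Nondegenerate
  compat : ∀ x y, ψ (F x) (F y) = (p : K) * frob p k K (ψ x y)

variable {p k K V}

/-- `F^r` is linear and its characteristic polynomial is
`x^6 + s x^5 + t x^4 + u x^3 + q t x^2 + q^2 s x + q^3`, where `w = (s, t, u)`, `q = p^r`. -/
def PolIsocrystal.HasWeil [FiniteDimensional K V] (D : PolIsocrystal p k K V) (r : ℕ)
    (w : ℤ × ℤ × ℤ) : Prop :=
  ∃ Φ : Module.End K V, (∀ x, Φ x = D.F^[r] x) ∧
    Φ.charpoly = (weilPoly (p ^ r) w).map (Int.castRingHom K)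

/-- `M` is a self-dual Dieudonné lattice: a finitely generated `W(k)`-submodule of `V` which
spans `V`, is stable under `F` and under the Verschiebung `p F⁻¹`, and is its own dual for `ψ`. -/
def PolIsocrystal.IsSelfDual [Module (WittVector p k) V] [IsScalarTower (WittVector p k) K V]
    (D : PolIsocrystal p k K V) (M : Submodule (WittVector p k) V) : Prop :=
  M.FG ∧ Submodule.span K (M : Set V) = ⊤ ∧ (∀ x ∈ M, D.F x ∈ M) ∧
    (∀ x ∈ M, (p : WittVector p k) • D.F.symm x ∈ M) ∧ D.ψ.dualSubmodule M = M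

/-- The `a`-number of a Dieudonné lattice: the length of `M / (F M + p F⁻¹ M)`, where
`F M + p F⁻¹ M` is the `W(k)`-submodule spanned by all `F x` and `p F⁻¹ x` with `x ∈ M`. -/
noncomputable def PolIsocrystal.aNumber [Module (WittVector p k) V]
    (D : PolIsocrystal p k K V) (M : Submodule (WittVector p k) V) : ℕ∞ :=
  Module.length (WittVector p k)
    (M ⧸ (Submodule.span (WittVector p k) {z | ∃ x ∈ M, z = D.F x ∨
      z = (p : WittVector p k) • D.F.symm x}).submoduleOf M)

end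

end Pool.Agent.Helper98.HJ
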