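import Pool.Agent.Helper98.HJ.Lat

/-!
# Dual bases of Lagrangian halves
-/

namespace Pool.Agent.Helper98.HJ

open Submodule Module

section Field

variable {K V : Type*} [Field K] [AddCommGroup V] [Module K V]

/-- A vector of one half which is orthogonal to the other half vanishes. -/
theorem eq_zero_of_orth (ψ : LinearMap.BilinForm K V) (hN : ψ.Nondegenerate)
    (N₁ N₂ : Submodule K V) (hc : IsCompl N₁ N₂) (i₂ : ∀ x ∈ N₂, ∀ y ∈ N₂, ψ x y = 0)
    (y : V) (hy : y ∈ N₂) (h : ∀ x ∈ N₁, ψ x y = 0) : y = 0 := by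
  have key : ∀ x, ψ x y = 0 := by
    intro x
    have hx : x ∈ N₁ ⊔ N₂ := by rw [hc.sup_eq_top]; trivial
    obtain ⟨a, ha, b, hb, rfl⟩ := Submodule.mem_sup.1 hx
    rw [map_add, LinearMap.add_apply, h a ha, i₂ b hb y hy, add_zero]
  exact hN.2 y key

theorem exists_right (ψ : LinearMap.BilinForm K V) (hA : ψ.IsAlt) (hN : ψ.Nondegenerate)
    [FiniteDimensional K V] (l : Module.Dual K V) : ∃ y, ∀ x, ψ x y = l x := by
  refine ⟨-((ψ.toDual hN).symm l), fun x => ?_⟩
  rw [map_neg, hA.neg_eq x]
  have h2 := LinearMap.BilinForm.toDual_def (B := ψ) hN (m := (ψ.toDual hN).symm l) (n := x)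
  rw [← h2, LinearEquiv.apply_symm_apply]

end Field

section PID

variable {W K V : Type*} [CommRing W] [IsDomain W] [IsPrincipalIdealRing W] [Field K]
  [Algebra W K] [IsFractionRing W K]
  [AddCommGroup V] [Module K V] [Module W V] [IsScalarTower W K V]

theorem exists_dual [FiniteDimensional K V] (ψ : LinearMap.BilinForm K V) (hA : ψ.IsAlt)
    (hN : ψ.Nondegenerate)
    (N₁ N₂ : Submodule K V) (hc : IsCompl N₁ N₂)
    (i₁ : ∀ x ∈ N₁, ∀ y ∈ N₁, ψ x y = 0) (i₂ : ∀ x ∈ N₂, ∀ y ∈ N₂, ψ x y = 0)
    (M₁ : Submodule W V) (hfg : M₁.FG) (hs : Submodule.span K (M₁ : Set V) = N₁) :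
    ∃ (n : ℕ) (e f : Fin n → V), (∀ i, e i ∈ M₁) ∧ (∀ i, f i ∈ N₂) ∧
      Submodule.span W (Set.range e) = M₁ ∧
      (∀ i j, ψ (e i) (f j) = if i = j then 1 else 0) ∧
      (∀ y ∈ N₂, ∑ i, ψ (e i) y • f i = y) ∧ (∀ x ∈ N₁, ∑ i, ψ x (f i) • e i = x) := by
  classical
  have hT : Module.IsTorsionFree W V := Module.IsTorsionFree.trans_faithfulSMul W K V
  have hfin : Module.Finite W M₁ := Module.Finite.iff_fg.2 hfg
  obtain ⟨n, b⟩ : Σ n : ℕ, Basis (Fin n) W M₁ := Module.basisOfFiniteTypeTorsionFree'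
  set e : Fin n → V := fun i => (b i : V) with he
  have heM : ∀ i, e i ∈ M₁ := fun i => (b i).2
  have heN : ∀ i, e i ∈ N₁ := fun i => hs ▸ Submodule.subset_span (heM i)
  have hli : LinearIndependent K e := by
    rw [← LinearIndependent.iff_fractionRing (R := W), linearIndependent_iff']
    intro s g hg
    simp_rw [he, ← Submodule.coe_smul_of_tower, ← Submodule.coe_sum, Submodule.coe_eq_zero] at hg
    exact linearIndependent_iff'.mp b.linearIndependent s g hg
  have hspW : Submodule.span W (Set.range e) = M₁ := by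
    have h0 : Set.range e = M₁.subtype '' (Set.range b) := by
      rw [← Set.range_comp]; rfl
    rw [h0, ← Submodule.map_span, b.span_eq, Submodule.map_top, Submodule.range_subtype]
  have hspK : Submodule.span K (Set.range e) = N₁ := by
    rw [← hs, ← hspW, Submodule.span_span_of_tower]
  -- the coordinate functionals
  have hex : ∀ j, ∃ l : Module.Dual K V, (∀ i, l (e i) = if i = j then 1 else 0) ∧
      ∀ y ∈ N₂, l y = 0 := by
    intro j
    let e' : Fin n → N₁ := fun i => ⟨e i, heN i⟩
    have hli' : LinearIndependent K e' := by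
      refine LinearIndependent.of_comp N₁.subtype ?_
      exact hli
    have hsp' : ⊤ ≤ Submodule.span K (Set.range e') := by
      rintro ⟨x, hx⟩ -
      rw [← hspK] at hx
      have : Set.range e = N₁.subtype '' Set.range e' := by rw [← Set.range_comp]; rfl
      rw [this, ← Submodule.map_span] at hx
      obtain ⟨y, hy, hyx⟩ := hx
      have : y = ⟨x, by rw [← hyx]; exact y.2⟩ := Subtype.ext hyx
      rw [← this]; exact hy
    let B : Basis (Fin n) K N₁ := Basis.mk hli' hsp'
    have hB : ∀ i, B i = e' i := fun i => by rw [Basis.mk_apply]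
    refine ⟨(B.coord j).comp (N₁.projectionOnto N₂ hc), fun i => ?_, fun y hy => ?_⟩
    · rw [LinearMap.comp_apply]
      have h1 : N₁.projectionOnto N₂ hc (e i) = e' i :=
        Submodule.projectionOnto_apply_left hc (e' i)
      rw [h1, ← hB, Basis.coord_apply, Basis.repr_self, Finsupp.single_apply]
    · rw [LinearMap.comp_apply]
      have h1 : N₁.projectionOnto N₂ hc y = 0 :=
        (Submodule.projectionOnto_apply_eq_zero_iff hc).2 hy
      rw [h1, map_zero]
  choose l hl1 hl2 using hex
  choose f hf using fun j => exists_right ψ hA hN (l j)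
  have hef : ∀ i j, ψ (e i) (f j) = if i = j then 1 else 0 := fun i j => by rw [hf, hl1]
  have hfN : ∀ j, f j ∈ N₂ := by
    intro j
    have hx : f j ∈ N₁ ⊔ N₂ := by rw [hc.sup_eq_top]; trivial
    obtain ⟨a, ha, c, hcN, hac⟩ := Submodule.mem_sup.1 hx
    have ha0 : a = 0 := by
      refine eq_zero_of_orth ψ hN N₂ N₁ hc.symm i₁ a ha ?_
      intro x hxN
      have h1 : ψ x (f j) = 0 := by rw [hf, hl2 j x hxN]
      rw [← hac, map_add, i₂ x hxN c hcN, add_zero] at h1
      exact h1
    rw [← hac, ha0, zero_add]; exact hcN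
  refine ⟨n, e, f, heM, hfN, hspW, hef, ?_, ?_⟩
  · intro y hy
    have h0 : (∑ i, ψ (e i) y • f i) - y = 0 := by
      refine eq_zero_of_orth ψ hN N₁ N₂ hc i₂ _ ?_ ?_
      · exact Submodule.sub_mem _ (Submodule.sum_mem _ fun i _ => Submodule.smul_mem _ _ (hfN i)) hy
      · intro x hx
        rw [← hspK] at hx
        refine Submodule.span_induction (p := fun x _ => ψ x ((∑ i, ψ (e i) y • f i) - y) = 0)
          ?_ ?_ ?_ ?_ hx
        · rintro _ ⟨k, rfl⟩
          rw [map_sub, map_sum]
          simp only [map_smul, hef, smul_eq_mul, mul_ite, mul_one, mul_zero]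
          rw [Finset.sum_ite_eq Finset.univ k]
          simp
        · simp
        · intro a c _ _ ha hc'
          rw [map_add, LinearMap.add_apply, ha, hc', add_zero]
        · intro c a _ ha
          rw [map_smul, LinearMap.smul_apply, ha, smul_zero]
    exact sub_eq_zero.1 h0
  · intro x hx
    have hspan : x ∈ Submodule.span K (Set.range e) := by rw [hspK]; exact hx
    refine Submodule.span_induction (p := fun x _ => ∑ i, ψ x (f i) • e i = x) ?_ ?_ ?_ ?_ hspan
    · rintro _ ⟨k, rfl⟩
      simp only [hef, ite_smul, one_smul, zero_smul]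
      rw [Finset.sum_ite_eq Finset.univ k]
      simp
    · simp
    · intro a c _ _ ha hc'
      simp only [map_add, LinearMap.add_apply, add_smul, Finset.sum_add_distrib]
      rw [ha, hc']
    · intro c a _ ha
      simp only [map_smul, LinearMap.smul_apply, smul_eq_mul, mul_smul, ← Finset.smul_sum]
      rw [ha]

end PID

end Pool.Agent.Helper98.HJ
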