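import Mathlib

/-!
# Idempotents in finite algebras over a complete ring with finite residue ring
-/

namespace Pool.Agent.Helper98.HJ

open Polynomial

theorem smodEq_iff {W M : Type*} [CommRing W] [AddCommGroup M] [Module W M] (π : W) (n : ℕ)
    (x y : M) : x ≡ y [SMOD ((Ideal.span {π}) ^ n • ⊤ : Submodule W M)] ↔
      ∃ z, x - y = π ^ n • z := by
  rw [SModEq.sub_mem, Ideal.span_singleton_pow, Submodule.ideal_span_singleton_smul]
  constructor
  · intro h
    obtain ⟨z, -, hz⟩ := Submodule.mem_smul_pointwise_iff_exists _ _ _ |>.1 h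
    exact ⟨z, hz.symm⟩
  · rintro ⟨z, hz⟩
    exact (Submodule.mem_smul_pointwise_iff_exists _ _ _).2 ⟨z, trivial, hz.symm⟩

theorem complete_of_basis {W M ι : Type*} [CommRing W] [AddCommGroup M] [Module W M] [Fintype ι]
    (b : Module.Basis ι W M) (π : W) [hW : IsAdicComplete (Ideal.span {π}) W] :
    IsAdicComplete (Ideal.span {π}) M where
  haus' := by
    intro x hx
    apply b.ext_elem
    intro i
    rw [map_zero, Finsupp.zero_apply]
    refine IsHausdorff.haus hW.toIsHausdorff _ fun n => ?_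
    obtain ⟨z, hz⟩ := (smodEq_iff π n x 0).1 (hx n)
    rw [smodEq_iff]
    refine ⟨b.repr z i, ?_⟩
    rw [sub_zero] at hz ⊢
    rw [hz, map_smul, Finsupp.smul_apply]
  prec' := by
    intro f hf
    have h1 : ∀ i, ∃ L : W, ∀ n, b.repr (f n) i ≡ L [SMOD ((Ideal.span {π}) ^ n • ⊤ : Submodule W W)] := by
      intro i
      refine IsPrecomplete.prec hW.toIsPrecomplete (f := fun n => b.repr (f n) i) ?_
      intro m n hmn
      obtain ⟨z, hz⟩ := (smodEq_iff π m _ _).1 (hf hmn)
      rw [smodEq_iff]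
      refine ⟨b.repr z i, ?_⟩
      rw [← Finsupp.sub_apply, ← map_sub, hz, map_smul, Finsupp.smul_apply]
    choose L hL using h1
    refine ⟨∑ i, L i • b i, fun n => ?_⟩
    rw [smodEq_iff]
    have h2 : ∀ i, ∃ z : W, b.repr (f n) i - L i = π ^ n • z := fun i =>
      (smodEq_iff π n _ _).1 (hL i n)
    choose z hz using h2
    refine ⟨∑ i, z i • b i, ?_⟩
    apply b.ext_elem
    intro i
    rw [map_sub, Finsupp.sub_apply, map_smul, Finsupp.smul_apply, b.repr_sum_self,
      b.repr_sum_self, hz i]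

theorem pow_idem {M : Type*} [CommMonoid M] (x : M) (i d : ℕ) (h : x ^ (i + d) = x ^ i)
    (n l : ℕ) (hn : i ≤ n) : x ^ (n + l * d) = x ^ n := by
  have h1 : ∀ l, x ^ (i + l * d) = x ^ i := by
    intro l
    induction l with
    | zero => simp
    | succ l ih =>
      have : i + (l + 1) * d = (i + l * d) + d := by ring
      rw [this, pow_add, ih, ← pow_add, h]
  obtain ⟨j, rfl⟩ := Nat.exists_eq_add_of_le hn
  have : i + j + l * d = j + (i + l * d) := by ring
  rw [this, pow_add, h1, ← pow_add, add_comm j i]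

theorem exists_idem {W : Type*} [CommRing W] [Nontrivial W] (π : W)
    [hW : IsAdicComplete (Ideal.span {π}) W] [hfin : Finite (W ⧸ Ideal.span {π})]
    (P : W[X]) (hP : P.Monic) :
    ∃ (m : ℕ) (e w b : W[X]), 1 ≤ m ∧ P ∣ e * e - e ∧ P ∣ X * w - e ∧
      P ∣ (1 - e) * X ^ m - C π * b := by
  classical
  let A := AdjoinRoot P
  let x : A := AdjoinRoot.root P
  let pb := AdjoinRoot.powerBasis' hP
  have hA : IsAdicComplete (Ideal.span {π}) A := complete_of_basis pb.basis π
  set J : Ideal A := (Ideal.span {π}).map (algebraMap W A) with hJ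
  have hAJ : IsAdicComplete J A := (IsAdicComplete.map_algebraMap_iff (Ideal.span {π}) A).2 hA
  have memJ : ∀ z : A, z ∈ J ↔ ∃ y : A, z = algebraMap W A π * y := by
    intro z
    rw [hJ, Ideal.map_span, Set.image_singleton, Ideal.mem_span_singleton]
    rfl
  have hH : HenselianRing A J := inferInstance
  -- powers of `x` modulo `J`
  obtain ⟨m, hm1, hm⟩ : ∃ m, 1 ≤ m ∧ x ^ m * x ^ m - x ^ m ∈ J := by
    obtain ⟨i, j, hij, hgij⟩ := Finite.exists_ne_map_eq_of_infinite
      (fun j : ℕ => (fun i : Fin pb.dim =>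
        (Ideal.Quotient.mk (Ideal.span {π}) (pb.basis.repr (x ^ j) i))))
    have key : ∀ i j : ℕ, (∀ l : Fin pb.dim, Ideal.Quotient.mk (Ideal.span {π})
        (pb.basis.repr (x ^ j) l) = Ideal.Quotient.mk (Ideal.span {π})
        (pb.basis.repr (x ^ i) l)) → Ideal.Quotient.mk J (x ^ j) = Ideal.Quotient.mk J (x ^ i) := by
      intro i j h
      rw [Ideal.Quotient.eq, memJ]
      have h2 : ∀ l, ∃ z : W, pb.basis.repr (x ^ j) l - pb.basis.repr (x ^ i) l = π * z := by
        intro l
        exact (Ideal.mem_span_singleton.1 ((Ideal.Quotient.eq).1 (h l)))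
      choose z hz using h2
      refine ⟨∑ l, z l • pb.basis l, ?_⟩
      rw [← Algebra.smul_def]
      apply pb.basis.ext_elem
      intro l
      rw [map_sub, Finsupp.sub_apply, map_smul, Finsupp.smul_apply, pb.basis.repr_sum_self, hz l]
      rfl
    obtain ⟨i, d, hd, hid⟩ : ∃ i d : ℕ, 1 ≤ d ∧
        Ideal.Quotient.mk J x ^ (i + d) = Ideal.Quotient.mk J x ^ i := by
      rcases lt_or_gt_of_ne hij with h | h
      · refine ⟨i, j - i, by omega, ?_⟩
        rw [← map_pow, ← map_pow]
        have : i + (j - i) = j := by omega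
        rw [this]
        exact key i j fun l => (congrFun hgij l).symm
      · refine ⟨j, i - j, by omega, ?_⟩
        rw [← map_pow, ← map_pow]
        have : j + (i - j) = i := by omega
        rw [this]
        exact key j i fun l => (congrFun hgij l)
    refine ⟨(i + 1) * d, ?_, ?_⟩
    · exact Nat.mul_pos (by omega) hd
    · rw [← Ideal.Quotient.eq, ← pow_add, map_pow, map_pow]
      refine pow_idem _ i d hid _ (i + 1) ?_
      nlinarith
  -- the idempotent
  obtain ⟨e, he, hey⟩ := hH.is_henselian (X ^ 2 - X) (by monicity!) (x ^ m)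
    (by
      simp only [eval_sub, eval_pow, eval_X]
      rw [pow_two]; exact hm)
    (by
      simp only [derivative_sub, derivative_X_pow, derivative_X, eval_sub, eval_mul, eval_pow,
        eval_X, eval_one]
      refine IsUnit.of_mul_eq_one (Ideal.Quotient.mk J (2 * x ^ m - 1)) ?_
      rw [← map_one (Ideal.Quotient.mk J), ← map_mul, Ideal.Quotient.eq]
      have h4 := J.mul_mem_left 4 hm
      convert h4 using 1
      simp
      ring)
  rw [IsRoot.def] at he
  simp only [eval_sub, eval_pow, eval_X] at he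
  obtain ⟨a, ha⟩ := (memJ _).1 hey
  have hunit : IsUnit (1 - algebraMap W A π * a) := by
    have h1 : algebraMap W A π * a ∈ (⊥ : Ideal A).jacobson :=
      IsAdicComplete.le_jacobson_bot J ((memJ _).2 ⟨a, rfl⟩)
    have h2 := (Ideal.mem_jacobson_bot.1 h1) (-1)
    have h3 : algebraMap W A π * a * -1 + 1 = 1 - algebraMap W A π * a := by ring
    rwa [h3] at h2
  obtain ⟨z, hz⟩ := hunit.exists_right_inv
  obtain ⟨pe, hpe⟩ := AdjoinRoot.mk_surjective e
  obtain ⟨pw, hpw⟩ := AdjoinRoot.mk_surjective (e * x ^ (m - 1) * z)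
  obtain ⟨pb', hpb⟩ := AdjoinRoot.mk_surjective (-(1 - e) * a)
  have hx : AdjoinRoot.mk P X = x := AdjoinRoot.mk_X
  refine ⟨m, pe, pw, pb', hm1, ?_, ?_, ?_⟩
  · rw [← AdjoinRoot.mk_eq_zero, map_sub, map_mul, hpe]
    rw [← he]; ring
  · rw [← AdjoinRoot.mk_eq_zero, map_sub, map_mul, hpw, hpe, hx]
    have h1 : x * (e * x ^ (m - 1) * z) = e * x ^ m * z := by
      obtain ⟨j, rfl⟩ := Nat.exists_eq_add_of_le hm1
      rw [Nat.add_sub_cancel_left, pow_add]
      ring
    have h2 : x ^ m = e - algebraMap W A π * a := by rw [← ha]; ring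
    rw [h1, h2]
    have h3 : e * (e - algebraMap W A π * a) = e * (1 - algebraMap W A π * a) := by
      linear_combination he
    rw [h3, mul_assoc, hz]; ring
  · rw [← AdjoinRoot.mk_eq_zero, map_sub, map_mul, map_mul, hpb, map_sub, map_one, hpe, map_pow, hx]
    have h2 : x ^ m = e - algebraMap W A π * a := by rw [← ha]; ring
    have h4 : AdjoinRoot.mk P (C π) = algebraMap W A π := rfl
    rw [h2, h4]
    linear_combination -he

end Pool.Agent.Helper98.HJ
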