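import Mathlib

/-!
# Self-dual lattices with large a-number (algebra over a principal ideal domain)

`W` is a principal ideal domain with fraction field `K`, `σ` an automorphism of `K` which restricts
to an automorphism of `W`, `π` a nonzero nonunit of `W` fixed by `σ`, `V` a finite-dimensional
`K`-space with a `σ`-semilinear bijection `F` and an alternating form `ψ` with
`ψ (F x) (F y) = π σ (ψ x y)`.
-/

namespace Pool.Agent.Helper98.HJ

open Submodule Module

section Generic

variable {W K V : Type*} [CommRing W] [Field K] [Algebra W K]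
  [AddCommGroup V] [Module K V] [Module W V] [IsScalarTower W K V]

/-- The `W`-submodule `F M + U M`. -/
def FV (W : Type*) {V : Type*} [CommRing W] [AddCommGroup V] [Module W V] (F U : V → V)
    (M : Submodule W V) : Submodule W V :=
  Submodule.span W {z | ∃ x ∈ M, z = F x ∨ z = U x}

/-- The `W`-submodule `π M`. -/
def scaled (π : W) (M : Submodule W V) : Submodule W V where
  carrier := {z | ∃ x ∈ M, z = π • x}
  add_mem' := by
    rintro _ _ ⟨x, hx, rfl⟩ ⟨y, hy, rfl⟩
    exact ⟨x + y, M.add_mem hx hy, by rw [smul_add]⟩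
  zero_mem' := ⟨0, M.zero_mem, by rw [smul_zero]⟩
  smul_mem' := by
    rintro c _ ⟨x, hx, rfl⟩
    exact ⟨c • x, M.smul_mem c hx, by rw [smul_smul, smul_smul, mul_comm]⟩

theorem mem_scaled {π : W} {M : Submodule W V} {z : V} :
    z ∈ scaled π M ↔ ∃ x ∈ M, z = π • x := Iff.rfl

/-- If `M = F M + U M` and `F³ M, U³ M ⊆ π M`, `F U = U F = π`, then `M ⊆ π M`. -/
theorem le_scaled (τ ρ : W →+* W) (F U : V →+ V)
    (hF : ∀ (c : W) x, F (c • x) = τ c • F x) (hU : ∀ (c : W) x, U (c • x) = ρ c • U x)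
    (π : W) (hτ : τ π = π) (hρ : ρ π = π) (hFU : ∀ x, F (U x) = π • x)
    (hUF : ∀ x, U (F x) = π • x) (M : Submodule W V)
    (h1 : ∀ x ∈ M, F x ∈ M) (h2 : ∀ x ∈ M, U x ∈ M)
    (h3 : ∀ x ∈ M, F (F (F x)) ∈ scaled π M) (h4 : ∀ x ∈ M, U (U (U x)) ∈ scaled π M)
    (hM : M ≤ FV W F U M) : M ≤ scaled π M := by
  have a1 : ∀ x ∈ M, F (F x) ∈ scaled π M := by
    intro x hx
    have hx' := hM hx
    refine Submodule.span_induction (p := fun z _ => F (F z) ∈ scaled π M) ?_ ?_ ?_ ?_ hx'
    · rintro z ⟨y, hy, rfl | rfl⟩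
      · exact h3 y hy
      · rw [hFU, hF, hτ]
        exact ⟨F y, h1 y hy, rfl⟩
    · rw [map_zero, map_zero]; exact Submodule.zero_mem _
    · intro y z _ _ hy hz
      rw [map_add, map_add]; exact Submodule.add_mem _ hy hz
    · intro c y _ hy
      rw [hF, hF]; exact Submodule.smul_mem _ _ hy
  have a2 : ∀ x ∈ M, U (U x) ∈ scaled π M := by
    intro x hx
    have hx' := hM hx
    refine Submodule.span_induction (p := fun z _ => U (U z) ∈ scaled π M) ?_ ?_ ?_ ?_ hx'
    · rintro z ⟨y, hy, rfl | rfl⟩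
      · rw [hUF, hU, hρ]
        exact ⟨U y, h2 y hy, rfl⟩
      · exact h4 y hy
    · rw [map_zero, map_zero]; exact Submodule.zero_mem _
    · intro y z _ _ hy hz
      rw [map_add, map_add]; exact Submodule.add_mem _ hy hz
    · intro c y _ hy
      rw [hU, hU]; exact Submodule.smul_mem _ _ hy
  have b1 : ∀ x ∈ M, F x ∈ scaled π M := by
    intro x hx
    have hx' := hM hx
    refine Submodule.span_induction (p := fun z _ => F z ∈ scaled π M) ?_ ?_ ?_ ?_ hx'
    · rintro z ⟨y, hy, rfl | rfl⟩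
      · exact a1 y hy
      · rw [hFU]
        exact ⟨y, hy, rfl⟩
    · rw [map_zero]; exact Submodule.zero_mem _
    · intro y z _ _ hy hz
      rw [map_add]; exact Submodule.add_mem _ hy hz
    · intro c y _ hy
      rw [hF]; exact Submodule.smul_mem _ _ hy
  have b2 : ∀ x ∈ M, U x ∈ scaled π M := by
    intro x hx
    have hx' := hM hx
    refine Submodule.span_induction (p := fun z _ => U z ∈ scaled π M) ?_ ?_ ?_ ?_ hx'
    · rintro z ⟨y, hy, rfl | rfl⟩
      · rw [hUF]
        exact ⟨y, hy, rfl⟩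
      · exact a2 y hy
    · rw [map_zero]; exact Submodule.zero_mem _
    · intro y z _ _ hy hz
      rw [map_add]; exact Submodule.add_mem _ hy hz
    · intro c y _ hy
      rw [hU]; exact Submodule.smul_mem _ _ hy
  refine hM.trans ?_
  refine Submodule.span_le.2 ?_
  rintro z ⟨y, hy, rfl | rfl⟩
  · exact b1 y hy
  · exact b2 y hy

end Generic

end Pool.Agent.Helper98.HJ
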