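import Mathlib

/-!
# Plane quartics in characteristic 2 with Hasse-Witt matrix of rank at most one are singular
-/

namespace Pool.Agent.Helper98.HJ

open MvPolynomial

/-- The exponent vector `(a, b, c)` of the monomial `X₀ᵃ X₁ᵇ X₂ᶜ`. -/
noncomputable def ex (a b c : ℕ) : Fin 3 →₀ ℕ := Finsupp.equivFunOnFinite.symm ![a, b, c]

/-- The Hasse-Witt matrix of a plane quartic in characteristic `2`: the `(i, j)` entry is the
coefficient of `X^(2 eᵢ - eⱼ)`, where `e₀ = (2,1,1)`, `e₁ = (1,2,1)`, `e₂ = (1,1,2)`. -/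
noncomputable def hasseWitt {K : Type*} [Field K] (G : MvPolynomial (Fin 3) K) :
    Matrix (Fin 3) (Fin 3) K :=
  !![G.coeff (ex 2 1 1), G.coeff (ex 3 0 1), G.coeff (ex 3 1 0);
     G.coeff (ex 0 3 1), G.coeff (ex 1 2 1), G.coeff (ex 1 3 0);
     G.coeff (ex 0 1 3), G.coeff (ex 1 0 3), G.coeff (ex 1 1 2)]

theorem ex_eq_iff {a b c : ℕ} {m : Fin 3 →₀ ℕ} :
    ex a b c = m ↔ a = m 0 ∧ b = m 1 ∧ c = m 2 := by
  constructor
  · rintro rfl
    exact ⟨rfl, rfl, rfl⟩
  · rintro ⟨h0, h1, h2⟩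
    ext i
    fin_cases i
    · exact h0
    · exact h1
    · exact h2

theorem monomial_ex {K : Type*} [Field K] (a b c : ℕ) (r : K) :
    monomial (ex a b c) r = C r * (X 0 ^ a * X 1 ^ b * X 2 ^ c) := by
  rw [monomial_eq, Finsupp.prod_fintype _ _ (by intro i; simp), Fin.prod_univ_three]
  rfl

theorem degree_three (m : Fin 3 →₀ ℕ) : m.degree = m 0 + m 1 + m 2 := by
  rw [Finsupp.degree_eq_sum, Fin.sum_univ_three]

/-- A quartic form is the sum of its fifteen monomials. -/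
theorem quartic_eq {K : Type*} [Field K] (G : MvPolynomial (Fin 3) K) (hG : G.IsHomogeneous 4) :
    G = monomial (ex 4 0 0) (G.coeff (ex 4 0 0)) + monomial (ex 0 4 0) (G.coeff (ex 0 4 0))
      + monomial (ex 0 0 4) (G.coeff (ex 0 0 4)) + monomial (ex 0 2 2) (G.coeff (ex 0 2 2))
      + monomial (ex 2 0 2) (G.coeff (ex 2 0 2)) + monomial (ex 2 2 0) (G.coeff (ex 2 2 0))
      + monomial (ex 2 1 1) (G.coeff (ex 2 1 1)) + monomial (ex 3 0 1) (G.coeff (ex 3 0 1))
      + monomial (ex 3 1 0) (G.coeff (ex 3 1 0)) + monomial (ex 0 3 1) (G.coeff (ex 0 3 1))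
      + monomial (ex 1 2 1) (G.coeff (ex 1 2 1)) + monomial (ex 1 3 0) (G.coeff (ex 1 3 0))
      + monomial (ex 0 1 3) (G.coeff (ex 0 1 3)) + monomial (ex 1 0 3) (G.coeff (ex 1 0 3))
      + monomial (ex 1 1 2) (G.coeff (ex 1 1 2)) := by
  ext m
  obtain ⟨a, b, c, rfl⟩ : ∃ a b c, m = ex a b c :=
    ⟨m 0, m 1, m 2, (ex_eq_iff.2 ⟨rfl, rfl, rfl⟩).symm⟩
  have e0 : (ex a b c) 0 = a := rfl
  have e1 : (ex a b c) 1 = b := rfl
  have e2 : (ex a b c) 2 = c := rfl
  by_cases h : a + b + c = 4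
  · have ha : a ≤ 4 := by omega
    have hb : b ≤ 4 := by omega
    obtain rfl : c = 4 - a - b := by omega
    simp only [coeff_add, coeff_monomial, ex_eq_iff, e0, e1, e2]
    clear e0 e1 e2
    interval_cases a <;> interval_cases b <;> first | omega | simp
  · rw [hG.coeff_eq_zero (by rw [degree_three, e0, e1, e2]; exact h)]
    simp only [coeff_add, coeff_monomial, ex_eq_iff, e0, e1, e2]
    rw [if_neg (by omega), if_neg (by omega), if_neg (by omega), if_neg (by omega),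
      if_neg (by omega), if_neg (by omega), if_neg (by omega), if_neg (by omega),
      if_neg (by omega), if_neg (by omega), if_neg (by omega), if_neg (by omega),
      if_neg (by omega), if_neg (by omega), if_neg (by omega)]
    simp

theorem rank_one {K : Type*} [Field K] (H : Matrix (Fin 3) (Fin 3) K) (h : H.rank ≤ 1) :
    ∃ u v : Fin 3 → K, ∀ i j, H i j = u i * v j := by
  rw [Matrix.rank, finrank_le_one_iff] at h
  obtain ⟨⟨u, hu⟩, h⟩ := h
  have h1 : ∀ j : Fin 3, ∃ c : K, ∀ i, H i j = u i * c := by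
    intro j
    obtain ⟨c, hc⟩ := h ⟨H.mulVecLin (Pi.single j 1), ⟨_, rfl⟩⟩
    refine ⟨c, fun i => ?_⟩
    have h2 := congrFun (congrArg Subtype.val hc) i
    simp only [Matrix.mulVecLin_apply, Matrix.mulVec_single_one] at h2
    rw [mul_comm]
    exact h2.symm
  choose v hv using h1
  exact ⟨u, v, fun i j => hv j i⟩

theorem quad_zero {K : Type*} [Field K] [IsAlgClosed K] (A B C : K) :
    ∃ x y : K, (x ≠ 0 ∨ y ≠ 0) ∧ A * x ^ 2 + B * x * y + C * y ^ 2 = 0 := by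
  by_cases hA : A = 0
  · exact ⟨1, 0, Or.inl one_ne_zero, by rw [hA]; ring⟩
  · obtain ⟨x, hx⟩ := IsAlgClosed.exists_root
      (Polynomial.C A * Polynomial.X ^ 2 + Polynomial.C B * Polynomial.X + Polynomial.C C)
      (by rw [Polynomial.degree_quadratic hA]; norm_num)
    refine ⟨x, 1, Or.inr one_ne_zero, ?_⟩
    rw [Polynomial.IsRoot.def] at hx
    simp only [Polynomial.eval_add, Polynomial.eval_mul, Polynomial.eval_C, Polynomial.eval_pow,
      Polynomial.eval_X] at hx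
    linear_combination hx

theorem line_zero {K : Type*} [Field K] [IsAlgClosed K] (w0 w1 w2 s0 s1 s2 t0 t1 t2 : K) :
    ∃ v : Fin 3 → K, v ≠ 0 ∧ w0 * v 0 + w1 * v 1 + w2 * v 2 = 0 ∧
      s0 * v 0 ^ 2 + s1 * v 1 ^ 2 + s2 * v 2 ^ 2 + t0 * (v 1 * v 2) + t1 * (v 0 * v 2)
        + t2 * (v 0 * v 1) = 0 := by
  -- two independent zeros of the linear form
  obtain ⟨a, b, hab, ha, hb⟩ : ∃ a b : Fin 3 → K,
      (∀ x y : K, (∀ i, x * a i + y * b i = 0) → x = 0 ∧ y = 0) ∧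
      w0 * a 0 + w1 * a 1 + w2 * a 2 = 0 ∧ w0 * b 0 + w1 * b 1 + w2 * b 2 = 0 := by
    by_cases h0 : w0 = 0
    · by_cases h1 : w1 = 0
      · refine ⟨![1, 0, 0], ![0, 1, 0], ?_, ?_, ?_⟩
        · intro x y h
          have e0 := h 0
          have e1 := h 1
          simp at e0 e1
          exact ⟨e0, e1⟩
        · simp [h0]
        · simp [h1]
      · refine ⟨![1, 0, 0], ![0, w2, -w1], ?_, ?_, ?_⟩
        · intro x y h
          have e0 := h 0
          have e2 := h 2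
          simp at e0 e2
          exact ⟨e0, e2.resolve_right h1⟩
        · simp [h0]
        · simp
          ring
    · refine ⟨![w1, -w0, 0], ![w2, 0, -w0], ?_, ?_, ?_⟩
      · intro x y h
        have e1 := h 1
        have e2 := h 2
        simp at e1 e2
        exact ⟨e1.resolve_right h0, e2.resolve_right h0⟩
      · simp
        ring
      · simp
        ring
  obtain ⟨x, y, hxy, hq⟩ := quad_zero
    (s0 * a 0 ^ 2 + s1 * a 1 ^ 2 + s2 * a 2 ^ 2 + t0 * (a 1 * a 2) + t1 * (a 0 * a 2)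
        + t2 * (a 0 * a 1))
    (2 * s0 * a 0 * b 0 + 2 * s1 * a 1 * b 1 + 2 * s2 * a 2 * b 2 + t0 * (a 1 * b 2 + b 1 * a 2)
      + t1 * (a 0 * b 2 + b 0 * a 2) + t2 * (a 0 * b 1 + b 0 * a 1))
    (s0 * b 0 ^ 2 + s1 * b 1 ^ 2 + s2 * b 2 ^ 2 + t0 * (b 1 * b 2) + t1 * (b 0 * b 2)
        + t2 * (b 0 * b 1))
  refine ⟨fun i => x * a i + y * b i, ?_, ?_, ?_⟩
  · intro h
    have := hab x y (fun i => congrFun h i)
    rcases hxy with h1 | h1
    · exact h1 this.1
    · exact h1 this.2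
  · linear_combination x * ha + y * hb
  · linear_combination hq

/-- A plane quartic over an algebraically closed field of characteristic `2` whose Hasse-Witt
matrix has rank at most `1` has a singular point. -/
theorem quartic_singular {K : Type*} [Field K] [IsAlgClosed K] [CharP K 2]
    (G : MvPolynomial (Fin 3) K) (hG : G.IsHomogeneous 4) (hr : (hasseWitt G).rank ≤ 1) :
    ∃ v : Fin 3 → K, v ≠ 0 ∧ eval v G = 0 ∧ ∀ i, eval v (pderiv i G) = 0 := by
  obtain ⟨u, v, huv⟩ := rank_one _ hr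
  have sq : ∀ a : K, ∃ b, b ^ 2 = a := fun a => IsAlgClosed.exists_pow_nat_eq a (by norm_num)
  obtain ⟨s0, hs0⟩ := sq (G.coeff (ex 4 0 0))
  obtain ⟨s1, hs1⟩ := sq (G.coeff (ex 0 4 0))
  obtain ⟨s2, hs2⟩ := sq (G.coeff (ex 0 0 4))
  obtain ⟨t0, ht0⟩ := sq (G.coeff (ex 0 2 2))
  obtain ⟨t1, ht1⟩ := sq (G.coeff (ex 2 0 2))
  obtain ⟨t2, ht2⟩ := sq (G.coeff (ex 2 2 0))
  obtain ⟨w0, hw0⟩ := sq (u 0)
  obtain ⟨w1, hw1⟩ := sq (u 1)
  obtain ⟨w2, hw2⟩ := sq (u 2)
  have h00 : G.coeff (ex 2 1 1) = u 0 * v 0 := huv 0 0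
  have h01 : G.coeff (ex 3 0 1) = u 0 * v 1 := huv 0 1
  have h02 : G.coeff (ex 3 1 0) = u 0 * v 2 := huv 0 2
  have h10 : G.coeff (ex 0 3 1) = u 1 * v 0 := huv 1 0
  have h11 : G.coeff (ex 1 2 1) = u 1 * v 1 := huv 1 1
  have h12 : G.coeff (ex 1 3 0) = u 1 * v 2 := huv 1 2
  have h20 : G.coeff (ex 0 1 3) = u 2 * v 0 := huv 2 0
  have h21 : G.coeff (ex 1 0 3) = u 2 * v 1 := huv 2 1
  have h22 : G.coeff (ex 1 1 2) = u 2 * v 2 := huv 2 2
  set S : MvPolynomial (Fin 3) K := C s0 * X 0 ^ 2 + C s1 * X 1 ^ 2 + C s2 * X 2 ^ 2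
    + C t0 * (X 1 * X 2) + C t1 * (X 0 * X 2) + C t2 * (X 0 * X 1) with hS
  set l : MvPolynomial (Fin 3) K := C w0 * X 0 + C w1 * X 1 + C w2 * X 2 with hl
  set q : MvPolynomial (Fin 3) K := C (v 0) * (X 1 * X 2) + C (v 1) * (X 0 * X 2)
    + C (v 2) * (X 0 * X 1) with hq
  have two : (2 : MvPolynomial (Fin 3) K) = 0 := by
    have := CharP.cast_eq_zero (MvPolynomial (Fin 3) K) 2
    exact_mod_cast this
  have key : G = S * S + l * l * q := by
    rw [quartic_eq G hG]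
    simp only [monomial_ex]
    rw [h00, h01, h02, h10, h11, h12, h20, h21, h22, ← hs0, ← hs1, ← hs2, ← ht0, ← ht1, ← ht2,
      ← hw0, ← hw1, ← hw2, hS, hl, hq]
    simp only [map_mul, map_pow, pow_zero, mul_one, one_mul, pow_one]
    generalize (C s0 : MvPolynomial (Fin 3) K) = S0
    generalize (C s1 : MvPolynomial (Fin 3) K) = S1
    generalize (C s2 : MvPolynomial (Fin 3) K) = S2
    generalize (C t0 : MvPolynomial (Fin 3) K) = T0
    generalize (C t1 : MvPolynomial (Fin 3) K) = T1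
    generalize (C t2 : MvPolynomial (Fin 3) K) = T2
    generalize (C w0 : MvPolynomial (Fin 3) K) = W0
    generalize (C w1 : MvPolynomial (Fin 3) K) = W1
    generalize (C w2 : MvPolynomial (Fin 3) K) = W2
    generalize (C (v 0) : MvPolynomial (Fin 3) K) = V0
    generalize (C (v 1) : MvPolynomial (Fin 3) K) = V1
    generalize (C (v 2) : MvPolynomial (Fin 3) K) = V2
    generalize (X 0 : MvPolynomial (Fin 3) K) = x
    generalize (X 1 : MvPolynomial (Fin 3) K) = y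
    generalize (X 2 : MvPolynomial (Fin 3) K) = z
    linear_combination (-(S0 * S1 * x ^ 2 * y ^ 2 + S0 * S2 * x ^ 2 * z ^ 2
      + S0 * T0 * x ^ 2 * y * z + S0 * T1 * x ^ 3 * z + S0 * T2 * x ^ 3 * y
      + S1 * S2 * y ^ 2 * z ^ 2 + S1 * T0 * y ^ 3 * z + S1 * T1 * x * y ^ 2 * z
      + S1 * T2 * x * y ^ 3 + S2 * T0 * y * z ^ 3 + S2 * T1 * x * z ^ 3 + S2 * T2 * x * y * z ^ 2
      + T0 * T1 * x * y * z ^ 2 + T0 * T2 * x * y ^ 2 * z + T1 * T2 * x ^ 2 * y * z
      + (W0 * W1 * x * y + W0 * W2 * x * z + W1 * W2 * y * z)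
        * (V0 * y * z + V1 * x * z + V2 * x * y))) * two
  obtain ⟨a, ha0, hla, hSa⟩ := line_zero w0 w1 w2 s0 s1 s2 t0 t1 t2
  have eS : eval a S = 0 := by
    rw [hS]
    simp only [map_add, map_mul, map_pow, eval_C, eval_X]
    exact hSa
  have el : eval a l = 0 := by
    rw [hl]
    simp only [map_add, map_mul, eval_C, eval_X]
    exact hla
  refine ⟨a, ha0, ?_, fun i => ?_⟩
  · rw [key, map_add, map_mul, map_mul, map_mul, eS, el]
    ring
  · rw [key, map_add, pderiv_mul, pderiv_mul, pderiv_mul]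
    simp only [map_add, map_mul, eS, el]
    ring

end Pool.Agent.Helper98.HJ
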