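import Pool.Agent.Helper98.HJ.Defs
import Pool.Agent.Helper98.HJ.Quartic

/-!
# Hyperelliptic curves of genus three, plane quartics, and abelian threefolds over `F_(2^r)`
-/

namespace Pool.Agent.Helper98.HJ

open Polynomial

/-- There is a polynomial `f` of degree `7` over the finite field `k` such that for every finite
extension `E` of `k`, of degree `n`, the curve `y^2 + y = f(x)` has `|E| - ∑ α^n` affine points
over `E`, the sum over the complex roots `α` (with multiplicity) of the polynomial of `w`.
(For `k` of characteristic `2`, `y^2 + y = f(x)` is a hyperelliptic curve of genus `3` with exactly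
one point at infinity, so this says that its Jacobian has the Weil polynomial given by `w`.) -/
def IsHyperelliptic (k : Type) [Field k] (w : ℤ × ℤ × ℤ) : Prop :=
  ∃ f : k[X], f.natDegree = 7 ∧ ∀ (E : Type) [Field E] [Finite E] [Algebra k E],
    (Nat.card {P : E × E // P.2 ^ 2 + P.2 = aeval P.1 f} : ℂ) =
      (Nat.card E : ℂ) -
        ((((weilPoly (Nat.card k) w).map (Int.castRingHom ℂ)).roots.map
          (fun α => α ^ Module.finrank k E)).sum)

/-- `G` is the equation of a smooth plane quartic (over an algebraically closed field). -/
def IsSmoothQuartic {K : Type} [Field K] (G : MvPolynomial (Fin 3) K) : Prop :=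
  G.IsHomogeneous 4 ∧ ∀ v : Fin 3 → K, v ≠ 0 → MvPolynomial.eval v G = 0 →
    ∃ i, MvPolynomial.eval v (MvPolynomial.pderiv i G) ≠ 0

/-- Abelian threefolds over the field `k` with `2^r` elements, seen through their Weil polynomials
and `a`-numbers (`K` is the fraction field of `W(k)`, `V` a vector space of dimension `6` over it).
The fields `howe`, `dieudonne`, `torelli` are theorems of the literature. -/
structure Threefolds (k : Type) [Field k] [Finite k] [CharP k 2] (r : ℕ)
    (K V : Type) [Field K] [Algebra (WittVector 2 k) K] [IsFractionRing (WittVector 2 k) K]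
    [AddCommGroup V] [Module K V] [FiniteDimensional K V] [Module (WittVector 2 k) V]
    [IsScalarTower (WittVector 2 k) K V] where
  /-- the `(s, t, u)` of the Weil polynomials of the abelian threefolds over `k` -/
  classes : Set (ℤ × ℤ × ℤ)
  /-- the principally polarised abelian threefolds over `k` -/
  Obj : Type
  /-- the `(s, t, u)` of the Weil polynomial -/
  weil : Obj → ℤ × ℤ × ℤ
  /-- the `a`-number -/
  a : Obj → ℕ∞
  /-- Howe: a simple isogeny class of odd dimension contains a principally polarised variety -/
  howe : ∀ w ∈ classes, FirstSlope 2 r w → ∃ A, weil A = w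
  /-- Dieudonné theory: the isocrystal of a principally polarised threefold `A`; `F^r` is the
  Frobenius; the self-dual Dieudonné lattices are the Dieudonné modules of the principally
  polarised threefolds which are isogenous to `A` by a quasi-isogeny of `2`-power degree which
  respects the polarisations -/
  dieudonne : ∀ A, ∃ D : PolIsocrystal 2 k K V, D.HasWeil r (weil A) ∧
    ∀ M : Submodule (WittVector 2 k) V, D.IsSelfDual M →
      ∃ A', weil A' = weil A ∧ a A' = D.aNumber M
  /-- Oort-Ueno, Torelli and Serre: `A` is geometrically a Jacobian and, up to a quadratic twist in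
  the non-hyperelliptic case, a Jacobian; normal form of the hyperelliptic curves of `2`-rank `0`;
  the `a`-number of the Jacobian of a plane quartic is `3 - rank` of the Hasse-Witt matrix -/
  torelli : ∀ A, FirstSlope 2 r (weil A) → IsHyperelliptic k (weil A) ∨
    ∃ G : MvPolynomial (Fin 3) (AlgebraicClosure k), IsSmoothQuartic G ∧
      ((hasseWitt G).rank : ℕ∞) + a A = 3

end Pool.Agent.Helper98.HJ
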