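import Pool.Agent.Helper98.HJ.Clear

/-!
# A lattice `L` with `F³ L = π L` from a lattice on which `(π⁻¹ F³)^r` is bijective
-/

namespace Pool.Agent.Helper98.HJ

theorem exists_unit_lattice {W K V : Type*} [CommRing W] [IsDomain W] [IsPrincipalIdealRing W]
    [Field K] [Algebra W K] [IsFractionRing W K] [AddCommGroup V] [Module K V] [Module W V]
    [IsScalarTower W K V]
    (τ : W ≃+* W) (σ : K ≃+* K) (hσ : ∀ c : W, σ (algebraMap W K c) = algebraMap W K (τ c))
    (π : W) (hπ0 : π ≠ 0) (hτπ : τ π = π)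
    (F : V ≃+ V) (hF : ∀ (c : K) x, F (c • x) = σ c • F x) (r : ℕ) (hr : 1 ≤ r)
    (N₁ : Submodule K V) (hFN : ∀ x ∈ N₁, F x ∈ N₁) (L₁ : Submodule W V) (fgL₁ : L₁.FG)
    (hLN : ∀ x ∈ L₁, x ∈ N₁) (hcl : ∀ x ∈ N₁, ∃ ε : W, ε ≠ 0 ∧ ε • x ∈ L₁) (Ψ : V → V)
    (hΨ : ∀ x, Ψ x = ((algebraMap W K π)⁻¹) ^ r • F^[r] (F^[r] (F^[r] x)))
    (Ψup : ∀ x ∈ L₁, Ψ x ∈ L₁) (Ψdn : ∀ x ∈ L₁, ∃ y ∈ L₁, x = Ψ y) :
    ∃ L : Submodule W V, L.FG ∧ Submodule.span K (L : Set V) = N₁ ∧
        ∀ z, (∃ x ∈ L, z = F (F (F x))) ↔ ∃ x ∈ L, z = π • x := by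
  classical
  have injWK : Function.Injective (algebraMap W K) := IsFractionRing.injective W K
  have wk : ∀ (c : W) (x : V), algebraMap W K c • x = c • x := fun c x =>
    IsScalarTower.algebraMap_smul K c x
  have hFW : ∀ (c : W) x, F (c • x) = τ c • F x := by
    intro c x
    rw [← IsScalarTower.algebraMap_smul K c x, hF, hσ, IsScalarTower.algebraMap_smul]
  obtain ⟨πK, hπK⟩ : ∃ c : K, c = algebraMap W K π := ⟨_, rfl⟩
  rw [← hπK] at hΨ
  have hπK0 : πK ≠ 0 := by
    intro h0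
    exact hπ0 (injWK (by rw [← hπK, h0, map_zero]))
  have hσπ : σ πK = πK := by rw [hπK, hσ, hτπ]
  obtain ⟨G, hG⟩ : ∃ G : V → V, ∀ x, G x = πK⁻¹ • F (F (F x)) := ⟨_, fun _ => rfl⟩
  have Gadd : ∀ x y, G (x + y) = G x + G y := by
    intro x y
    rw [hG, hG, hG, map_add, map_add, map_add, smul_add]
  have Gzero : G 0 = 0 := by
    rw [hG, map_zero, map_zero, map_zero, smul_zero]
  have Gsmul : ∀ (c : W) x, G (c • x) = τ (τ (τ c)) • G x := by
    intro c x
    rw [hG, hG, hFW, hFW, hFW, smul_comm]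
  have Giter_add : ∀ (j : ℕ) (x y : V), G^[j] (x + y) = G^[j] x + G^[j] y := by
    intro j
    induction j with
    | zero => intro x y; rfl
    | succ j ih =>
      intro x y
      rw [Function.iterate_succ_apply', Function.iterate_succ_apply', Function.iterate_succ_apply',
        ih, Gadd]
  have Giter_zero : ∀ (j : ℕ), G^[j] 0 = 0 := by
    intro j
    induction j with
    | zero => rfl
    | succ j ih => rw [Function.iterate_succ_apply', ih, Gzero]
  have Giter_smul : ∀ (j : ℕ) (c : W), ∃ c' : W, ∀ x, G^[j] (c • x) = c' • G^[j] x := by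
    intro j
    induction j with
    | zero => intro c; exact ⟨c, fun x => rfl⟩
    | succ j ih =>
      intro c
      obtain ⟨c', hc'⟩ := ih c
      refine ⟨τ (τ (τ c')), fun x => ?_⟩
      rw [Function.iterate_succ_apply', Function.iterate_succ_apply', hc', Gsmul]
  have Giter : ∀ (j : ℕ) (x : V), G^[j] x = (πK⁻¹) ^ j • F^[j] (F^[j] (F^[j] x)) := by
    intro j
    induction j with
    | zero => intro x; simp
    | succ j ih =>
      intro x
      have hcm : ∀ (i : ℕ) (z : V), F^[i] (F z) = F (F^[i] z) := by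
        intro i z
        rw [← Function.iterate_succ_apply, Function.iterate_succ_apply']
      have hσi : ∀ i : ℕ, σ ((πK⁻¹) ^ i) = (πK⁻¹) ^ i := by
        intro i
        rw [map_pow, map_inv₀, hσπ]
      rw [Function.iterate_succ_apply', ih, hG, hF, hF, hF, hσi, hσi, hσi, smul_smul, pow_succ',
        Function.iterate_succ_apply, Function.iterate_succ_apply, Function.iterate_succ_apply,
        hcm, hcm, hcm, hcm, hcm, hcm]
  have Gr : ∀ x, G^[r] x = Ψ x := by
    intro x
    rw [Giter, hΨ]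
  obtain ⟨T, rfl⟩ := fgL₁
  obtain ⟨S, hS⟩ : ∃ S : Finset V, S = (Finset.range r ×ˢ T).image (fun p => G^[p.1] p.2) :=
    ⟨_, rfl⟩
  have genL : ∀ j, j < r → ∀ x ∈ Submodule.span W (T : Set V),
      G^[j] x ∈ Submodule.span W (S : Set V) := by
    intro j hj x hx
    refine Submodule.span_induction (p := fun x _ => G^[j] x ∈ Submodule.span W (S : Set V))
      ?_ ?_ ?_ ?_ hx
    · intro x hx
      refine Submodule.subset_span ?_
      rw [hS]
      exact Finset.mem_coe.2 (Finset.mem_image.2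
        ⟨(j, x), Finset.mem_product.2 ⟨Finset.mem_range.2 hj, hx⟩, rfl⟩)
    · rw [Giter_zero]; exact Submodule.zero_mem _
    · intro x y _ _ hx hy
      rw [Giter_add]; exact Submodule.add_mem _ hx hy
    · intro c x _ hx
      obtain ⟨c', hc'⟩ := Giter_smul j c
      rw [hc']; exact Submodule.smul_mem _ _ hx
  have memS : ∀ z ∈ (S : Set V), ∃ j < r, ∃ x ∈ Submodule.span W (T : Set V), z = G^[j] x := by
    intro z hz
    rw [hS] at hz
    obtain ⟨⟨j, x⟩, hp, rfl⟩ := Finset.mem_image.1 (Finset.mem_coe.1 hz)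
    obtain ⟨h1, h2⟩ := Finset.mem_product.1 hp
    exact ⟨j, Finset.mem_range.1 h1, x, Submodule.subset_span h2, rfl⟩
  obtain ⟨L, hL⟩ : ∃ L : Submodule W V, L = Submodule.span W (S : Set V) := ⟨_, rfl⟩
  rw [← hL] at genL
  have upL : ∀ z ∈ L, G z ∈ L := by
    intro z hz
    rw [hL] at hz
    refine Submodule.span_induction (p := fun z _ => G z ∈ L) ?_ ?_ ?_ ?_ hz
    · intro z hz
      obtain ⟨j, hj, x, hx, rfl⟩ := memS z hz
      rw [← Function.iterate_succ_apply' G j x]
      rcases Nat.lt_or_ge (j + 1) r with h | h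
      · exact genL _ h x hx
      · have h1 : j + 1 = r := by omega
        have h2 : G^[j.succ] x = Ψ x := by
          rw [← Gr, ← h1]
        rw [h2]
        exact genL 0 (by omega) _ (Ψup x hx)
    · rw [Gzero]; exact L.zero_mem
    · intro x y _ _ hx hy
      rw [Gadd]; exact L.add_mem hx hy
    · intro c x _ hx
      rw [Gsmul]; exact L.smul_mem _ hx
  have dnL : ∀ z ∈ L, ∃ y ∈ L, z = G y := by
    intro z hz
    rw [hL] at hz
    refine Submodule.span_induction (p := fun z _ => ∃ y ∈ L, z = G y) ?_ ?_ ?_ ?_ hz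
    · intro z hz
      obtain ⟨j, hj, x, hx, rfl⟩ := memS z hz
      cases j with
      | zero =>
        obtain ⟨y, hy, hxy⟩ := Ψdn x hx
        refine ⟨G^[r - 1] y, genL _ (by omega) y hy, ?_⟩
        rw [← Function.iterate_succ_apply' G (r - 1) y]
        have h1 : (r - 1).succ = r := by omega
        rw [h1, Gr, ← hxy]
        rfl
      | succ j =>
        exact ⟨G^[j] x, genL _ (by omega) x hx, Function.iterate_succ_apply' G j x⟩
    · exact ⟨0, L.zero_mem, Gzero.symm⟩
    · rintro _ _ _ _ ⟨y, hy, rfl⟩ ⟨y', hy', rfl⟩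
      exact ⟨y + y', L.add_mem hy hy', (Gadd y y').symm⟩
    · rintro c _ _ ⟨y, hy, rfl⟩
      refine ⟨τ.symm (τ.symm (τ.symm c)) • y, L.smul_mem _ hy, ?_⟩
      rw [Gsmul]
      simp only [RingEquiv.apply_symm_apply]
  have GN : ∀ x ∈ N₁, G x ∈ N₁ := by
    intro x hx
    rw [hG]
    exact N₁.smul_mem _ (hFN _ (hFN _ (hFN _ hx)))
  have GNi : ∀ (j : ℕ), ∀ x ∈ N₁, G^[j] x ∈ N₁ := by
    intro j
    induction j with
    | zero => intro x hx; exact hx
    | succ j ih =>
      intro x hx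
      rw [Function.iterate_succ_apply']
      exact GN _ (ih x hx)
  have F3 : ∀ x, F (F (F x)) = π • G x := by
    intro x
    rw [hG, ← wk, ← hπK, smul_smul, mul_inv_cancel₀ hπK0, one_smul]
  refine ⟨L, ⟨S, hL.symm⟩, ?_, ?_⟩
  · apply le_antisymm
    · refine Submodule.span_le.2 ?_
      intro z hz
      have hz' : z ∈ Submodule.span W (S : Set V) := hL ▸ hz
      refine Submodule.span_induction (p := fun z _ => z ∈ N₁) ?_ ?_ ?_ ?_ hz'
      · intro z hz
        obtain ⟨j, hj, x, hx, rfl⟩ := memS z hz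
        exact GNi j x (hLN x hx)
      · exact N₁.zero_mem
      · intro x y _ _ hx hy
        exact N₁.add_mem hx hy
      · intro c x _ hx
        rw [← wk]
        exact N₁.smul_mem _ hx
    · intro x hx
      obtain ⟨ε, hε0, hε⟩ := hcl x hx
      have h2 : ε • x ∈ L := genL 0 (by omega) _ hε
      have h3 : algebraMap W K ε ≠ 0 := by
        intro h0
        exact hε0 (injWK (by rw [h0, map_zero]))
      have h4 : x = (algebraMap W K ε)⁻¹ • (ε • x) := by
        rw [← wk, smul_smul, inv_mul_cancel₀ h3, one_smul]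
      rw [h4]
      exact Submodule.smul_mem _ _ (Submodule.subset_span h2)
  · intro z
    constructor
    · rintro ⟨x, hx, rfl⟩
      exact ⟨G x, upL x hx, F3 x⟩
    · rintro ⟨x, hx, rfl⟩
      obtain ⟨y, hy, rfl⟩ := dnL x hx
      exact ⟨y, hy, (F3 y).symm⟩

end Pool.Agent.Helper98.HJ
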